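import Pool.Agent.K4H19.RO.Asm

set_option autoImplicit false

/-!
# The assembly, uniformly in the set of the deleted primes (after `Pool.Agent.K4H19.RO.assemble`)
-/

namespace Pool.Agent.K4H14.SP

open Finset Filter
open Pool.Agent.W208.TL (PP)
open Pool.Agent.K4H19.RO

theorem assemble' {k : ℕ} (hk : 1 ≤ k) (h : Fin k → ℕ) (hinj : Function.Injective h) (H : ℕ)
    (hH : ∀ i, h i ≤ H) (η : ℝ) (hη : 0 < η) : ∃ K w m0 : ℕ, 1 ≤ K ∧ ∀ᶠ N : ℕ in atTop, ∀ D : Set ℕ,
      Zdev h (NN (jj N)) (PP 0 (NN (jj N) + H)) (PP w (vv K (NN (jj N))))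
      (Fintype.piFinset (fun _ : Fin k => range (TT (NN (jj N))))) (sel D (PP 0 (NN (jj N) + H))) ≤
        3 * (1 / ((m0 : ℝ) + 1)) * (NN (jj N) : ℕ) → dev D h N ≤ η := by
  classical
  obtain ⟨C, hC⟩ : ∃ C : ℝ, C = 1 + 2 * k * 3 ^ k := ⟨_, rfl⟩
  have hC1 : 1 ≤ C := by
    rw [hC]
    have : (0 : ℝ) ≤ 2 * k * 3 ^ k := by positivity
    linarith
  obtain ⟨ε, hε⟩ : ∃ ε : ℝ, ε = min (η / (8 * C)) (1 / 3) := ⟨_, rfl⟩
  have hε0 : 0 < ε := by
    rw [hε]
    apply lt_min
    · positivity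
    · norm_num
  have hε1 : ε ≤ 1 / 3 := by rw [hε]; exact min_le_right _ _
  have hε2 : C * (3 * ε) ≤ 3 / 8 * η := by
    have : ε ≤ η / (8 * C) := by rw [hε]; exact min_le_left _ _
    rw [le_div_iff₀ (by linarith)] at this
    nlinarith
  obtain ⟨m0, hm0⟩ : ∃ m0 : ℕ, 3 * (1 / ((m0 : ℝ) + 1)) ≤ ε := by
    obtain ⟨m0, hm0⟩ := exists_nat_ge (3 / ε)
    refine ⟨m0, ?_⟩
    rw [div_le_iff₀ hε0] at hm0
    rw [mul_one_div, div_le_iff₀ (by positivity)]
    nlinarith
  obtain ⟨K, w0, hK, hlaw⟩ := law_trunc k hk ε hε0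
  obtain ⟨w, hw⟩ : ∃ w, w = max w0 H := ⟨_, rfl⟩
  obtain ⟨y0, hy0⟩ := hlaw h w H hinj hH (by rw [hw]; exact le_max_left _ _) (by rw [hw]; exact le_max_right _ _)
  have htail : Tendsto (fun N : ℕ => (1 + 2 * (H : ℝ) / N) ^ k - 1) atTop (nhds 0) := by
    have h1 : Tendsto (fun N : ℕ => 2 * (H : ℝ) / N) atTop (nhds 0) :=
      tendsto_const_div_atTop_nhds_zero_nat _
    have h2 := ((h1.const_add 1).pow k).sub_const 1
    simpa using h2
  have hlog2 : Tendsto (fun N : ℕ => 2 * (2 / Real.log (N : ℝ))) atTop (nhds 0) := by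
    have := (log_tendsto.const_div_atTop 2).const_mul 2
    simpa using this
  refine ⟨K, w, m0, hK, ?_⟩
  filter_upwards [NN_jj_ge,
    (NN_tendsto.comp jj_tendsto).eventually ((vv_tendsto K hK).eventually_ge_atTop y0),
    (NN_tendsto.comp jj_tendsto).eventually_ge_atTop (max H 8), eventually_ge_atTop (max H 8),
    (Metric.tendsto_nhds.1 htail) (η / 4) (by positivity), (Metric.tendsto_nhds.1 hlog2) ε hε0]
    with N g2 g3 g4 g5 g6 g7
  intro D g1
  dsimp only [Function.comp_apply] at g3 g4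
  obtain ⟨N', hN'⟩ : ∃ N', N' = NN (jj N) := ⟨_, rfl⟩
  rw [← hN'] at g1 g2 g3 g4
  have g4a : H ≤ N' := le_trans (le_max_left _ _) g4
  have g4b : 8 ≤ N' := le_trans (le_max_right _ _) g4
  have g5a : H ≤ N := le_trans (le_max_left _ _) g5
  have g5b : 8 ≤ N := le_trans (le_max_right _ _) g5
  have hNN : N' ≤ N := by rw [hN']; exact NN_jj_le N (by omega)
  have hN'r : (0 : ℝ) < N' := by exact_mod_cast (by omega : 0 < N')
  have hNr : (0 : ℝ) < N := by exact_mod_cast (by omega : 0 < N)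
  have hTT : ∀ M : ℕ, 2 * M < 2 ^ TT M := fun M => Nat.lt_pow_succ_log_self (by norm_num) _
  obtain ⟨m, hm, hml⟩ := hy0 (vv K N') N' g3 (vv_pow K N' hK) (by omega) (sel D (PP 0 (N' + H)))
  obtain ⟨B, hB⟩ : ∃ B, B = Fintype.piFinset (fun _ : Fin k => range (TT N)) := ⟨_, rfl⟩
  obtain ⟨B', hB'⟩ : ∃ B', B' = Fintype.piFinset (fun _ : Fin k => range (TT N')) := ⟨_, rfl⟩
  -- the first step
  have s1 := scale_close (fun n i => Om D (n + h i)) N' N (by omega) hNN B
  have s1' : 2 * (1 - (N' : ℝ) / N) ≤ ε := by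
    rw [Real.dist_eq, sub_zero] at g7
    have := le_abs_self (2 * (2 / Real.log (N : ℝ)))
    linarith
  -- the second step
  have hvec : ∀ n ∈ Icc 1 N', (fun i => Om D (n + h i)) = gV h (PP 0 (N' + H)) (sel D (PP 0 (N' + H))) n := by
    intro n hn
    apply Om_eq_gV
    intro j
    have := (mem_Icc.1 hn).2
    have := hH j
    omega
  have hsubU : PP w (vv K N') ⊆ PP 0 (N' + H) := by
    intro p hp
    rw [mem_PP] at hp ⊢
    have := vv_le K N' hK
    exact ⟨⟨by omega, by omega⟩, hp.2⟩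
  have hval : ∀ U, U ⊆ PP 0 (N' + H) → ∀ n ∈ Icc 1 N', gV h U (sel D (PP 0 (N' + H))) n ∈ B' := by
    intro U hU n hn
    rw [hB', Fintype.mem_piFinset]
    intro j
    rw [mem_range]
    apply gV_lt h (N' + H) (TT N') (sel D (PP 0 (N' + H))) (lt_of_le_of_lt (by omega) (hTT N'))
      (by unfold TT; omega) n (mem_Icc.1 hn).1 _ j U hU
    intro j
    have := (mem_Icc.1 hn).2
    have := hH j
    omega
  have s2 : ∑ l ∈ B, |cnt (fun n i => Om D (n + h i)) N' l / N' -
      cnt (gV h (PP w (vv K N')) (sel D (PP 0 (N' + H)))) N' l / N'| ≤ ε := by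
    have e1 : ∀ l, |cnt (fun n i => Om D (n + h i)) N' l / N' -
      cnt (gV h (PP w (vv K N')) (sel D (PP 0 (N' + H)))) N' l / N'| =
      |∑ n ∈ Icc 1 N', (ind (gV h (PP 0 (N' + H)) (sel D (PP 0 (N' + H))) n) l -
        ind (gV h (PP w (vv K N')) (sel D (PP 0 (N' + H))) n) l)| / N' := by
      intro l
      rw [← sub_div, abs_div, abs_of_pos hN'r]
      congr 2
      unfold cnt
      rw [← sum_sub_distrib]
      apply sum_congr rfl
      intro n hn
      dsimp only
      rw [hvec n hn]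
    have e2 : ∀ l, l ∉ B' → ∑ n ∈ Icc 1 N', (ind (gV h (PP 0 (N' + H)) (sel D (PP 0 (N' + H))) n) l -
        ind (gV h (PP w (vv K N')) (sel D (PP 0 (N' + H))) n) l) = 0 := by
      intro l hl
      apply sum_eq_zero
      intro n hn
      unfold ind
      rw [if_neg, if_neg, sub_zero]
      · intro e
        exact hl (e ▸ hval _ hsubU n hn)
      · intro e
        exact hl (e ▸ hval _ (Subset.refl _) n hn)
    rw [sum_congr rfl fun l _ => e1 l, ← sum_div]
    rw [div_le_iff₀ hN'r]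
    calc ∑ l ∈ B, |∑ n ∈ Icc 1 N', (ind (gV h (PP 0 (N' + H)) (sel D (PP 0 (N' + H))) n) l -
        ind (gV h (PP w (vv K N')) (sel D (PP 0 (N' + H))) n) l)|
        ≤ ∑ l ∈ B', |∑ n ∈ Icc 1 N', (ind (gV h (PP 0 (N' + H)) (sel D (PP 0 (N' + H))) n) l -
        ind (gV h (PP w (vv K N')) (sel D (PP 0 (N' + H))) n) l)| := by
          rw [← sum_filter_add_sum_filter_not B (fun l => l ∈ B')]
          rw [sum_eq_zero (s := B.filter (fun l => l ∉ B')) (fun l hl => by
            rw [e2 l (mem_filter.1 hl).2, abs_zero]), add_zero]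
          apply sum_le_sum_of_subset_of_nonneg
          · intro l hl
            exact (mem_filter.1 hl).2
          · intro _ _ _
            exact abs_nonneg _
      _ ≤ 3 * (1 / ((m0 : ℝ) + 1)) * N' := by
          rw [hB']
          exact g1
      _ ≤ ε * N' := mul_le_mul_of_nonneg_right hm0 hN'r.le
  have s3 := hml B
  have s4 : ∑ l ∈ B, |cnt (fun n i => Om D (n + h i)) N l / N - ∏ i, m (l i)| ≤ 3 * ε := by
    calc ∑ l ∈ B, |cnt (fun n i => Om D (n + h i)) N l / N - ∏ i, m (l i)|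
        ≤ ∑ l ∈ B, (|cnt (fun n i => Om D (n + h i)) N l / N - cnt (fun n i => Om D (n + h i)) N' l / N'| +
          |cnt (fun n i => Om D (n + h i)) N' l / N' -
            cnt (gV h (PP w (vv K N')) (sel D (PP 0 (N' + H)))) N' l / N'| +
          |cnt (gV h (PP w (vv K N')) (sel D (PP 0 (N' + H)))) N' l / N' - ∏ i, m (l i)|) := by
          apply sum_le_sum
          intro l _
          refine (abs_sub_le _ (cnt (gV h (PP w (vv K N')) (sel D (PP 0 (N' + H)))) N' l / N') _).trans ?_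
          exact add_le_add (abs_sub_le _ _ _) le_rfl
      _ ≤ ε + ε + ε := by
          rw [sum_add_distrib, sum_add_distrib]
          exact add_le_add (add_le_add (s1.trans s1') s2) s3
      _ = 3 * ε := by ring
  have s5 := dev_le D hk h H hH N (TT N) (by omega) (by unfold TT; omega) (lt_of_le_of_lt (by omega) (hTT N)) m hm
    (3 * ε) (by positivity) (by linarith) (by rw [hB] at s4; exact s4)
  rw [← hC] at s5
  have s6 : 0 ≤ dev D h N := by
    unfold dev
    exact tsum_nonneg fun _ => abs_nonneg _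
  rw [Real.dist_eq, sub_zero] at g6
  have := le_abs_self ((1 + 2 * (H : ℝ) / N) ^ k - 1)
  linarith

end Pool.Agent.K4H14.SP
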