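import Pool.Agent.K4H14.SP.Mean

/-!
# For a given `N` few primes `r` are exceptional
-/

set_option autoImplicit false

namespace Pool.Agent.K4H14.SP

open Finset Filter
open Pool.Agent.W208.TL (PP)
open Pool.Agent.K4H19.RO

/-- the deviation for the primes of `V` inert modulo `r` -/
noncomputable def Zr {k : ℕ} (V : Set ℕ) (h : Fin k → ℕ) (H K w N r : ℕ) : ℝ :=
  Zdev h N (PP 0 (N + H)) (PP w (vv K N)) (Fintype.piFinset (fun _ : Fin k => range (TT N)))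
    (sel (inert V r) (PP 0 (N + H)))

open Classical in
theorem few {k : ℕ} (V : Set ℕ)
    (hdiv : Tendsto (fun N : ℕ => ∑ p ∈ (Icc 1 N).filter (fun p : ℕ => p.Prime ∧ Real.log N < p),
      qv V p * (1 - qv V p) / p) atTop atTop) (h : Fin k → ℕ) (hinj : Function.Injective h) (H : ℕ) (hH : ∀ j, h j ≤ H)
    (K w : ℕ) (hK : 1 ≤ K) (δ : ℝ) (hδ : 0 < δ) (A : ℕ) : ∃ C : ℝ, 0 ≤ C ∧ ∀ᶠ N : ℕ in atTop, ∀ D Q : ℕ, 2 ≤ D →
      N + H ≤ D → (D : ℝ) ^ 2 ≤ Q / Real.log D → (D : ℝ) ^ 2 * (2 * (N : ℝ)) ^ (4 * k + 2) ≤ Q / Real.log D →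
      (((Ioc D Q).filter (fun r => r.Prime ∧ 3 * δ * N < Zr V h H K w N r)).card : ℝ) ≤
        C * (Q / Real.log D) / (Real.log N) ^ A := by
  have h0 := qv_nonneg V
  have h1 := qv_le V
  -- parameters
  obtain ⟨k', hk'⟩ : ∃ k', k' = 2 * k + A := ⟨_, rfl⟩
  obtain ⟨B, hB1, hB⟩ : ∃ B : ℕ, 1 ≤ B ∧ 32 * k * w ≤ δ * B := by
    obtain ⟨B, hB⟩ := exists_nat_ge (32 * k * w / δ)
    refine ⟨B + 1, by omega, ?_⟩
    rw [div_le_iff₀ hδ] at hB
    push_cast
    linarith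
  obtain ⟨ε, hε⟩ : ∃ ε : ℝ, ε = δ / (4 * (k * (B + K) + 1)) := ⟨_, rfl⟩
  have hden : (0 : ℝ) < 4 * (k * (B + K) + 1) := by positivity
  have hε0 : 0 < ε := by rw [hε]; positivity
  have hε1 : k * (B + K) * ε ≤ δ / 4 := by
    rw [hε, ← mul_div_assoc, div_le_div_iff₀ hden (by norm_num)]
    nlinarith
  obtain ⟨Y, hY⟩ := smooth_one ε hε0
  obtain ⟨L0, hL0⟩ : ∃ L0 : ℝ, L0 = max (2 * |Y| + 1) (128 * k / δ) := ⟨_, rfl⟩
  obtain ⟨U0, hU0⟩ : ∃ U0 : ℕ, 32 * k ≤ δ * U0 := by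
    obtain ⟨U0, hU0⟩ := exists_nat_ge (32 * k / δ)
    refine ⟨U0, ?_⟩
    rw [div_le_iff₀ hδ] at hU0
    linarith
  refine ⟨4 / δ ^ 2 * 4 ^ (2 * k) * (16 * k ^ 2 + 4), by positivity, ?_⟩
  have hpow : ∀ᶠ N : ℕ in atTop, (Real.log N) ^ (2 * k + A) ≤ (N : ℝ) ^ 2 := by
    have e1 := (isLittleO_log_rpow_rpow_atTop (s := 2) ((2 * k + A : ℕ) : ℝ) (by norm_num)).bound (one_pos)
    have e2 := (tendsto_natCast_atTop_atTop (R := ℝ)).eventually e1
    filter_upwards [e2, log_tendsto.eventually_ge_atTop 0] with N hN hN1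
    rw [Real.rpow_natCast, one_mul, Real.norm_eq_abs, Real.norm_eq_abs, abs_of_nonneg (by positivity),
      abs_of_nonneg (by positivity)] at hN
    exact_mod_cast hN
  filter_upwards [(mass_window (qv V) h0 h1 hdiv k' K hK).eventually_ge_atTop L0, (uu_tendsto k').eventually_ge_atTop
    (max (max H w) (max 1 U0)), uu_le_vv k' K hK, eventually_ge_atTop (max H 8), log_tendsto.eventually_ge_atTop 2,
    (vv_tendsto K hK).eventually_ge_atTop 1, hpow] with N g1 g2 g3 g4 g5 g6 g7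
  intro D Q hD hND hD2 hD3
  have g2a : H ≤ uu k' N := le_trans (le_trans (le_max_left _ _) (le_max_left _ _)) g2
  have g2b : w ≤ uu k' N := le_trans (le_trans (le_max_right _ _) (le_max_left _ _)) g2
  have g2c : 1 ≤ uu k' N := le_trans (le_trans (le_max_left _ _) (le_max_right _ _)) g2
  have g2d : U0 ≤ uu k' N := le_trans (le_trans (le_max_right _ _) (le_max_right _ _)) g2
  have g4a : H ≤ N := le_trans (le_max_left _ _) g4
  have g4b : 8 ≤ N := le_trans (le_max_right _ _) g4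
  have hNr : (8 : ℝ) ≤ N := by exact_mod_cast g4b
  have hHr : (H : ℝ) ≤ N := by exact_mod_cast g4a
  obtain ⟨L, hL⟩ : ∃ L, L = ∑ p ∈ PP (uu k' N) (vv K N), qv V p * (1 - qv V p) / p := ⟨_, rfl⟩
  rw [← hL] at g1
  have hL1 : 2 * |Y| + 1 ≤ L := le_trans (by rw [hL0]; exact le_max_left _ _) g1
  have hL2 : 128 * k / δ ≤ L := le_trans (by rw [hL0]; exact le_max_right _ _) g1
  have hLpos : 0 < L := by linarith [abs_nonneg Y]
  have hYL : Y ≤ L / 2 := by linarith [le_abs_self Y]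
  have hvN : vv K N ≤ N := vv_le K N hK
  have hvNr : ((vv K N : ℕ) : ℝ) ≤ N := by exact_mod_cast hvN
  have hKN : N + H < (vv K N + 1) ^ (K + 1) := by
    have h3 := vv_lt K N hK
    rw [pow_succ]
    calc N + H ≤ N * 2 := by omega
      _ < (vv K N + 1) ^ K * 2 := by omega
      _ ≤ (vv K N + 1) ^ K * (vv K N + 1) := Nat.mul_le_mul_left _ (by omega)
  have hbc := bad_card (qv V) h0 h1 h H N w (uu k' N) (vv K N) B hH g2c hB1 Y L hL hLpos hYL
  have hu0 : (0 : ℝ) < uu k' N := by exact_mod_cast g2c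
  have hB0 : (0 : ℝ) < B := by exact_mod_cast hB1
  have b1 : (k : ℝ) * (4 / L * (N + H + 2 * vv K N)) ≤ δ / 8 * N := by
    have e1 : (N : ℝ) + H + 2 * vv K N ≤ 4 * N := by linarith
    have e2 : (k : ℝ) * (4 / L * (4 * N)) ≤ δ / 8 * N := by
      have : (k : ℝ) * (4 / L * (4 * N)) = 16 * k / L * N := by ring
      rw [this]
      apply mul_le_mul_of_nonneg_right _ (by linarith)
      rw [div_le_iff₀ hLpos]
      rw [div_le_iff₀ hδ] at hL2
      linarith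
    refine le_trans ?_ e2
    gcongr
  have b2 : (k : ℝ) * ((N + H) / uu k' N) ≤ δ / 8 * N := by
    have e1 : (k : ℝ) * ((N + H) / uu k' N) ≤ k * ((2 * N) / uu k' N) := by
      gcongr
      linarith
    refine e1.trans ?_
    have e2 : (k : ℝ) * ((2 * N) / uu k' N) = 2 * k / uu k' N * N := by ring
    rw [e2]
    apply mul_le_mul_of_nonneg_right _ (by linarith)
    rw [div_le_iff₀ hu0]
    have : δ * U0 ≤ δ * uu k' N := mul_le_mul_of_nonneg_left (by exact_mod_cast g2d) hδ.le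
    linarith [Nat.cast_nonneg (α := ℝ) k]
  have b3 : (k : ℝ) * ((N + H) * w / B) ≤ δ / 8 * N := by
    have e1 : (k : ℝ) * ((N + H) * w / B) ≤ k * ((2 * N) * w / B) := by
      gcongr
      linarith
    refine e1.trans ?_
    have e2 : (k : ℝ) * ((2 * N) * w / B) = 2 * k * w / B * N := by ring
    rw [e2]
    apply mul_le_mul_of_nonneg_right _ (by linarith)
    rw [div_le_iff₀ hB0]
    have : (0 : ℝ) ≤ k * w := by positivity
    nlinarith
  have hbad : k * (B + K) * ε * N + 2 * ((bad (qv V) h (PP (uu k' N) (vv K N)) N w B Y).card : ℝ) ≤ δ * N := by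
    have e1 : k * (B + K) * ε * N ≤ δ / 4 * N := mul_le_mul_of_nonneg_right hε1 (by linarith)
    have e2 : (k : ℝ) * (4 / L * (N + H + 2 * vv K N) + (N + H) / uu k' N + (N + H) * w / B) =
      (k : ℝ) * (4 / L * (N + H + 2 * vv K N)) + (k : ℝ) * ((N + H) / uu k' N) + (k : ℝ) * ((N + H) * w / B) := by ring
    rw [e2] at hbc
    have : (0 : ℝ) ≤ δ * N := by positivity
    linarith
  obtain ⟨Bx, hBx⟩ : ∃ Bx, Bx = Fintype.piFinset (fun _ : Fin k => range (TT N)) := ⟨_, rfl⟩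
  have hUV : PP w (vv K N) ⊆ PP 0 (N + H) := by
    intro p hp
    rw [mem_PP] at hp ⊢
    exact ⟨⟨by omega, by omega⟩, hp.2⟩
  have hWU : PP (uu k' N) (vv K N) ⊆ PP 0 (N + H) := by
    intro p hp
    rw [mem_PP] at hp ⊢
    exact ⟨⟨by omega, by omega⟩, hp.2⟩
  have m1 := mean V h H N (uu k' N) (vv K N) D Q hH g2c hD hND (PP 0 (N + H)) (Subset.refl _) hWU Bx
  have m3 := mean V h H N (uu k' N) (vv K N) D Q hH g2c hD hND (PP w (vv K N)) hUV hWU Bx
  obtain ⟨Z1, hZ1⟩ : ∃ Z1 : ℕ → ℝ, Z1 = fun r => Zc (qv V) h N (PP 0 (N + H)) (PP (uu k' N) (vv K N)) Bx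
    (sel (inert V r) (PP 0 (N + H))) := ⟨_, rfl⟩
  obtain ⟨Z3, hZ3⟩ : ∃ Z3 : ℕ → ℝ, Z3 = fun r => Zc (qv V) h N (PP w (vv K N)) (PP (uu k' N) (vv K N)) Bx
    (sel (inert V r) (PP 0 (N + H))) := ⟨_, rfl⟩
  have htri : ∀ r, Zr V h H K w N r ≤ Z1 r + δ * N + Z3 r := by
    intro r
    rw [hZ1, hZ3]
    unfold Zr
    rw [← hBx]
    exact tri hε0.le hY (qv V) h0 h1 h hinj H N w (uu k' N) (vv K N) K B (by omega) hH g2a g2b g2c g3 (by omega) hKN
      Bx δ hbad _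
  have hδN : 0 < δ * N := by positivity
  obtain ⟨X, hX⟩ : ∃ X : ℝ, X = (Bx.card : ℝ) ^ 2 * ((Q / Real.log D + (D : ℝ) ^ 2) *
      (((k : ℝ) * ((N : ℝ) + H)) ^ 2 / (uu k' N : ℝ)) +
        4 * (((N : ℝ) + H) ^ k) ^ 2 * (D : ℝ) ^ 2 * (N * ((N : ℝ) + H) ^ k) ^ 2) := ⟨_, rfl⟩
  rw [← hX] at m1 m3
  -- Markov
  have hmark : (((Ioc D Q).filter (fun r => r.Prime ∧ 3 * δ * N < Zr V h H K w N r)).card : ℝ) * (δ * N) ^ 2 ≤ 2 * X := by
    calc (((Ioc D Q).filter (fun r => r.Prime ∧ 3 * δ * N < Zr V h H K w N r)).card : ℝ) * (δ * N) ^ 2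
        = ∑ _r ∈ (Ioc D Q).filter (fun r => r.Prime ∧ 3 * δ * N < Zr V h H K w N r), (δ * N) ^ 2 := by
          rw [sum_const, nsmul_eq_mul]
      _ ≤ ∑ r ∈ (Ioc D Q).filter (fun r => r.Prime ∧ 3 * δ * N < Zr V h H K w N r), (Z1 r ^ 2 + Z3 r ^ 2) := by
          apply sum_le_sum
          intro r hr
          rw [mem_filter] at hr
          have t := htri r
          have h3 : δ * N < Z1 r ∨ δ * N < Z3 r := by
            by_contra hcon
            push Not at hcon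
            linarith [hcon.1, hcon.2, hr.2.2]
          rcases h3 with h3 | h3
          · have := pow_le_pow_left₀ hδN.le h3.le 2
            nlinarith [sq_nonneg (Z3 r)]
          · have := pow_le_pow_left₀ hδN.le h3.le 2
            nlinarith [sq_nonneg (Z1 r)]
      _ ≤ ∑ r ∈ (Ioc D Q).filter Nat.Prime, (Z1 r ^ 2 + Z3 r ^ 2) := by
          apply sum_le_sum_of_subset_of_nonneg
          · intro r hr
            rw [mem_filter] at hr ⊢
            exact ⟨hr.1, hr.2.1⟩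
          · intro r _ _
            positivity
      _ ≤ X + X := by
          rw [sum_add_distrib]
          apply add_le_add
          · refine le_trans (le_of_eq ?_) m1
            rw [hZ1]
          · refine le_trans (le_of_eq ?_) m3
            rw [hZ3]
      _ = 2 * X := by ring
  -- the size of `X`
  have hcard : (Bx.card : ℝ) = (TT N : ℝ) ^ k := by
    rw [hBx, Fintype.card_piFinset, prod_const, card_univ, Fintype.card_fin, card_range]
    push_cast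
    rfl
  have hlog : 0 < Real.log N := by linarith
  have hT := TT_le N g4b
  have hTk : (Bx.card : ℝ) ^ 2 ≤ 4 ^ (2 * k) * (Real.log N) ^ (2 * k) := by
    rw [hcard, ← pow_mul, mul_comm k 2, ← mul_pow]
    exact pow_le_pow_left₀ (Nat.cast_nonneg _) hT _
  have hu2 : (Real.log N) ^ (2 * k + A) ≤ uu k' N := by
    have e1 : (Real.log N) ^ (k' + 4) < (uu k' N : ℝ) + 1 := Nat.lt_floor_add_one _
    have e3 : (Real.log N) ^ (k' + 4) = (Real.log N) ^ (2 * k + A) * (Real.log N) ^ 4 := by rw [hk', pow_add]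
    have e4 : (1 : ℝ) ≤ (Real.log N) ^ (2 * k + A) := one_le_pow₀ (by linarith)
    have e5 : (2 : ℝ) ≤ (Real.log N) ^ 4 := by
      have : (2 : ℝ) ^ 4 ≤ (Real.log N) ^ 4 := pow_le_pow_left₀ (by norm_num) g5 4
      linarith
    nlinarith
  obtain ⟨L', hL'⟩ : ∃ L' : ℝ, L' = Q / Real.log D := ⟨_, rfl⟩
  rw [← hL'] at hD2 hD3 hX ⊢
  have hL'0 : 0 ≤ L' := le_trans (by positivity) hD2
  have hX2 : X ≤ 4 ^ (2 * k) * (Real.log N) ^ (2 * k) * (2 * L' * ((2 * k * N) ^ 2 / (Real.log N) ^ (2 * k + A)) + 4 * L') := by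
    rw [hX]
    apply mul_le_mul hTk _ (by positivity) (by positivity)
    apply add_le_add
    · have e5 : ((k : ℝ) * ((N : ℝ) + H)) ^ 2 ≤ (2 * k * N) ^ 2 := by
        apply pow_le_pow_left₀ (by positivity)
        nlinarith [Nat.cast_nonneg (α := ℝ) k]
      have e6 : L' + (D : ℝ) ^ 2 ≤ 2 * L' := by linarith
      apply mul_le_mul e6 _ (by positivity) (by linarith)
      apply div_le_div₀ (by positivity) e5 (by positivity) hu2
    · have e7 : (N : ℝ) + H ≤ 2 * N := by linarith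
      have e8 : (((N : ℝ) + H) ^ k) ^ 2 ≤ ((2 * (N : ℝ)) ^ k) ^ 2 := by gcongr
      have e9 : (N * ((N : ℝ) + H) ^ k) ^ 2 ≤ ((2 * N) * (2 * (N : ℝ)) ^ k) ^ 2 := by
        apply pow_le_pow_left₀ (by positivity)
        apply mul_le_mul (by linarith) _ (by positivity) (by positivity)
        gcongr
      calc 4 * (((N : ℝ) + H) ^ k) ^ 2 * (D : ℝ) ^ 2 * (N * ((N : ℝ) + H) ^ k) ^ 2
          ≤ 4 * ((2 * (N : ℝ)) ^ k) ^ 2 * (D : ℝ) ^ 2 * ((2 * N) * (2 * (N : ℝ)) ^ k) ^ 2 := by gcongr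
        _ = 4 * ((D : ℝ) ^ 2 * (2 * (N : ℝ)) ^ (4 * k + 2)) := by ring
        _ ≤ 4 * L' := by linarith
  -- end
  have hNpos : (0 : ℝ) < N := by linarith
  have hfin : 2 * X ≤ 4 / δ ^ 2 * 4 ^ (2 * k) * (16 * k ^ 2 + 4) * L' / (Real.log N) ^ A * (δ * N) ^ 2 := by
    have e1 : (4 : ℝ) * L' ≤ 4 * L' * ((N : ℝ) ^ 2 / (Real.log N) ^ (2 * k + A)) := by
      apply le_mul_of_one_le_right (by positivity)
      rw [le_div_iff₀ (by positivity), one_mul]
      exact g7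
    have e2 : X ≤ 4 ^ (2 * k) * (Real.log N) ^ (2 * k) * ((8 * k ^ 2 + 4) * L' * ((N : ℝ) ^ 2 / (Real.log N) ^ (2 * k + A))) := by
      refine hX2.trans (mul_le_mul_of_nonneg_left ?_ (by positivity))
      refine (add_le_add le_rfl e1).trans (le_of_eq ?_)
      ring
    have e3 : 4 ^ (2 * k) * (Real.log N) ^ (2 * k) * ((8 * k ^ 2 + 4) * L' * ((N : ℝ) ^ 2 / (Real.log N) ^ (2 * k + A))) =
        4 ^ (2 * k) * (8 * k ^ 2 + 4) * L' / (Real.log N) ^ A * (N : ℝ) ^ 2 := by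
      rw [pow_add]
      field_simp
    rw [e3] at e2
    have e4 : 4 / δ ^ 2 * 4 ^ (2 * k) * (16 * k ^ 2 + 4) * L' / (Real.log N) ^ A * (δ * N) ^ 2 =
        4 * (4 ^ (2 * k) * (16 * k ^ 2 + 4) * L' / (Real.log N) ^ A * (N : ℝ) ^ 2) := by
      field_simp
    rw [e4]
    have e5 : (4 : ℝ) ^ (2 * k) * (8 * k ^ 2 + 4) * L' / (Real.log N) ^ A * (N : ℝ) ^ 2 ≤
        4 ^ (2 * k) * (16 * k ^ 2 + 4) * L' / (Real.log N) ^ A * (N : ℝ) ^ 2 := by
      gcongr
      norm_num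
    have e6 : 0 ≤ (4 : ℝ) ^ (2 * k) * (16 * k ^ 2 + 4) * L' / (Real.log N) ^ A * (N : ℝ) ^ 2 := by positivity
    linarith
  exact le_of_mul_le_mul_right (hmark.trans hfin) (by positivity)

end Pool.Agent.K4H14.SP
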