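import Mathlib

/-!
# Walsh expansion of functions of a finite set
-/

set_option autoImplicit false

namespace Pool.Agent.K4H14.SP

open Finset

/-- the sign of `p` -/
noncomputable def sg (S : Finset ℕ) (p : ℕ) : ℝ := if p ∈ S then -1 else 1

/-- the characters -/
noncomputable def ch (A S : Finset ℕ) : ℝ := ∏ p ∈ A, sg S p

/-- the coefficients -/
noncomputable def co (P : Finset ℕ) (g : Finset ℕ → ℝ) (A : Finset ℕ) : ℝ :=
  (∑ S ∈ P.powerset, g S * ch A S) / 2 ^ P.card

theorem sg_sq (S : Finset ℕ) (p : ℕ) : sg S p * sg S p = 1 := by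
  unfold sg; split_ifs <;> norm_num

theorem sg_abs (S : Finset ℕ) (p : ℕ) : |sg S p| = 1 := by
  unfold sg; split_ifs <;> norm_num

theorem ch_abs (A S : Finset ℕ) : |ch A S| = 1 := by
  unfold ch
  rw [abs_prod]
  exact prod_eq_one fun p _ => sg_abs S p

theorem ch_comm_inter (A P S : Finset ℕ) (h : A ⊆ P) : ch A (S ∩ P) = ch A S := by
  unfold ch
  apply prod_congr rfl
  intro p hp
  unfold sg
  have : p ∈ S ∩ P ↔ p ∈ S := by rw [mem_inter]; exact ⟨fun h1 => h1.1, fun h1 => ⟨h1, h hp⟩⟩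
  simp only [this]

theorem ch_orth (P S T : Finset ℕ) (hS : S ⊆ P) (hT : T ⊆ P) :
    ∑ A ∈ P.powerset, ch A S * ch A T = if S = T then (2 : ℝ) ^ P.card else 0 := by
  have h1 : ∑ A ∈ P.powerset, ch A S * ch A T = ∏ p ∈ P, (1 + sg S p * sg T p) := by
    rw [prod_one_add]
    apply sum_congr rfl
    intro A _
    unfold ch
    rw [prod_mul_distrib]
  rw [h1]
  split_ifs with h
  · subst h
    rw [prod_congr rfl fun p _ => by rw [sg_sq]]
    norm_num
  · have h2 : ∃ p ∈ P, ¬ (p ∈ S ↔ p ∈ T) := by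
      by_contra hc
      push Not at hc
      apply h
      ext p
      constructor
      · intro hp
        have := hc p (hS hp)
        tauto
      · intro hp
        have := hc p (hT hp)
        tauto
    obtain ⟨p, hp, hp2⟩ := h2
    apply prod_eq_zero hp
    unfold sg
    by_cases h3 : p ∈ S
    · rw [if_pos h3, if_neg (fun h4 => hp2 ⟨fun _ => h4, fun _ => h3⟩)]
      norm_num
    · rw [if_neg h3, if_pos (by by_contra h4; exact hp2 ⟨fun h5 => absurd h5 h3, fun h5 => absurd h5 h4⟩)]
      norm_num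

theorem ch_orth' (P A B : Finset ℕ) (hA : A ⊆ P) (hB : B ⊆ P) :
    ∑ S ∈ P.powerset, ch A S * ch B S = if A = B then (2 : ℝ) ^ P.card else 0 := by
  have hsw : ∀ A, A ⊆ P → ∀ S, S ⊆ P → ch A S = ch S A := by
    intro A hA S hS
    unfold ch sg
    rw [prod_ite, prod_ite, prod_const, prod_const, prod_const, prod_const, one_pow, one_pow, mul_one, mul_one]
    congr 2
    ext p
    simp only [mem_filter]
    tauto
  rw [sum_congr rfl fun S hS => by rw [hsw A hA S (mem_powerset.1 hS), hsw B hB S (mem_powerset.1 hS)]]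
  exact ch_orth P A B hA hB

/-- the expansion -/
theorem expand (P : Finset ℕ) (g : Finset ℕ → ℝ) (hg : ∀ S, g S = g (S ∩ P)) (S : Finset ℕ) :
    g S = ∑ A ∈ P.powerset, co P g A * ch A S := by
  have h1 : ∑ A ∈ P.powerset, co P g A * ch A S =
      (∑ T ∈ P.powerset, g T * ∑ A ∈ P.powerset, ch A T * ch A (S ∩ P)) / 2 ^ P.card := by
    unfold co
    rw [sum_congr rfl fun T _ => mul_sum _ _ _, sum_comm, sum_div]
    apply sum_congr rfl
    intro A hA
    rw [ch_comm_inter A P S (mem_powerset.1 hA), div_mul_eq_mul_div, sum_mul]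
    congr 1
    apply sum_congr rfl
    intro T _
    ring
  rw [h1, sum_congr rfl fun T hT => by rw [ch_orth P T (S ∩ P) (mem_powerset.1 hT) inter_subset_right]]
  simp only [mul_ite, mul_zero]
  rw [sum_ite_eq', if_pos (mem_powerset.2 inter_subset_right), hg S]
  have : (2 : ℝ) ^ P.card ≠ 0 := by positivity
  field_simp

/-- Parseval -/
theorem parseval (P : Finset ℕ) (g : Finset ℕ → ℝ) (hg : ∀ S, g S = g (S ∩ P)) (hg1 : ∀ S, |g S| ≤ 1) :
    ∑ A ∈ P.powerset, co P g A ^ 2 ≤ 1 := by
  have h2 : (2 : ℝ) ^ P.card ≠ 0 := by positivity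
  have h1 : ∑ S ∈ P.powerset, g S ^ 2 = (2 : ℝ) ^ P.card * ∑ A ∈ P.powerset, co P g A ^ 2 := by
    have e1 : ∀ S ∈ P.powerset, g S ^ 2 = ∑ A ∈ P.powerset, ∑ B ∈ P.powerset, co P g A * co P g B * (ch A S * ch B S) := by
      intro S _
      rw [expand P g hg S, sq, sum_mul_sum]
      apply sum_congr rfl
      intro A _
      apply sum_congr rfl
      intro B _
      ring
    rw [sum_congr rfl e1, sum_comm, mul_sum]
    apply sum_congr rfl
    intro A hA
    rw [sum_comm]
    rw [sum_congr rfl fun B hB => by rw [← mul_sum, ch_orth' P A B (mem_powerset.1 hA) (mem_powerset.1 hB)]]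
    simp only [mul_ite, mul_zero]
    rw [sum_ite_eq, if_pos hA]
    ring
  have h3 : ∑ S ∈ P.powerset, g S ^ 2 ≤ (2 : ℝ) ^ P.card := by
    calc ∑ S ∈ P.powerset, g S ^ 2 ≤ ∑ _S ∈ P.powerset, (1 : ℝ) := by
          apply sum_le_sum
          intro S _
          rw [← sq_abs]
          exact pow_le_one₀ (abs_nonneg _) (hg1 S)
      _ = (2 : ℝ) ^ P.card := by rw [sum_const, card_powerset, nsmul_eq_mul, mul_one]; push_cast; rfl
  rw [h1] at h3
  have h4 : (0 : ℝ) < (2 : ℝ) ^ P.card := by positivity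
  by_contra hc
  push Not at hc
  nlinarith

theorem co_abs (P : Finset ℕ) (g : Finset ℕ → ℝ) (hg1 : ∀ S, |g S| ≤ 1) (A : Finset ℕ) : |co P g A| ≤ 1 := by
  unfold co
  rw [abs_div, abs_of_pos (by positivity : (0 : ℝ) < 2 ^ P.card), div_le_one (by positivity)]
  refine (abs_sum_le_sum_abs _ _).trans ?_
  calc ∑ S ∈ P.powerset, |g S * ch A S| ≤ ∑ _S ∈ P.powerset, (1 : ℝ) := by
        apply sum_le_sum
        intro S _
        rw [abs_mul, ch_abs, mul_one]
        exact hg1 S
    _ = (2 : ℝ) ^ P.card := by rw [sum_const, card_powerset, nsmul_eq_mul, mul_one]; push_cast; rfl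

/-- vanishing coefficients -/
theorem co_zero (P W : Finset ℕ) (g : Finset ℕ → ℝ)
    (hm : ∀ E ⊆ P \ W, ∑ D ∈ (P ∩ W).powerset, g (E ∪ D) = 0) (A : Finset ℕ) (hA : A ⊆ P) (hAW : Disjoint A W) :
    co P g A = 0 := by
  unfold co
  rw [div_eq_zero_iff]
  left
  have h1 : ∑ S ∈ P.powerset, g S * ch A S =
      ∑ E ∈ (P \ W).powerset, ∑ D ∈ (P ∩ W).powerset, g (E ∪ D) * ch A (E ∪ D) := by
    rw [← sum_product']
    symm
    apply sum_nbij' (fun x => x.1 ∪ x.2) (fun S => (S \ W, S ∩ W))
    · rintro ⟨E, D⟩ hx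
      rw [mem_product, mem_powerset, mem_powerset] at hx
      rw [mem_powerset]
      exact union_subset (hx.1.trans sdiff_subset) (hx.2.trans inter_subset_left)
    · intro S hS
      rw [mem_powerset] at hS
      rw [mem_product, mem_powerset, mem_powerset]
      exact ⟨sdiff_subset_sdiff hS (Subset.refl _), inter_subset_inter hS (Subset.refl _)⟩
    · rintro ⟨E, D⟩ hx
      rw [mem_product, mem_powerset, mem_powerset] at hx
      have h2 : ∀ p ∈ E, p ∉ W := fun p hp => (mem_sdiff.1 (hx.1 hp)).2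
      have h3 : ∀ p ∈ D, p ∈ W := fun p hp => (mem_inter.1 (hx.2 hp)).2
      ext p
      · simp only [mem_sdiff, mem_union]
        constructor
        · rintro ⟨h4 | h4, h5⟩
          · exact h4
          · exact absurd (h3 p h4) h5
        · intro h4
          exact ⟨Or.inl h4, h2 p h4⟩
      · simp only [mem_inter, mem_union]
        constructor
        · rintro ⟨h4 | h4, h5⟩
          · exact absurd h5 (h2 p h4)
          · exact h4
        · intro h4
          exact ⟨Or.inr h4, h3 p h4⟩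
    · intro S _
      exact sdiff_union_inter S W
    · rintro ⟨E, D⟩ _
      rfl
  rw [h1]
  apply sum_eq_zero
  intro E hE
  rw [mem_powerset] at hE
  have h2 : ∀ D ∈ (P ∩ W).powerset, g (E ∪ D) * ch A (E ∪ D) = g (E ∪ D) * ch A E := by
    intro D hD
    rw [mem_powerset] at hD
    congr 1
    unfold ch
    apply prod_congr rfl
    intro p hp
    unfold sg
    have h3 : p ∈ E ∪ D ↔ p ∈ E := by
      rw [mem_union]
      constructor
      · rintro (h4 | h4)
        · exact h4
        · exact absurd (mem_inter.1 (hD h4)).2 (disjoint_left.1 hAW hp)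
      · exact Or.inl
    simp only [h3]
  rw [sum_congr rfl h2, ← sum_mul, hm E hE, zero_mul]

end Pool.Agent.K4H14.SP
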