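import Pool.Agent.K4H14.SP.Few
import Pool.Agent.K4H14.SP.Asm
import Pool.Agent.K4H14.GQ.Final

/-!
# The law for the primes which are not inert, for almost all `r`
-/

set_option autoImplicit false

namespace Pool.Agent.K4H14.SP

open Finset Filter
open Pool.Agent.W208.TL (PP)
open Pool.Agent.K4H19.RO
open Pool.Agent.K4H14.GQ (PQ mem_PQ PL card_split PQ_mono primes_le log_le_half)

/-- conditions for large `Q` -/
theorem params (k H A : ℕ) (hk : 1 ≤ k) : ∃ Q₀ : ℕ, 3 ≤ Q₀ ∧ ∀ Q : ℕ, Q₀ ≤ Q → ∃ D : ℕ, 2 ≤ D ∧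
    (Q : ℝ) ^ ((1 : ℝ) / 16) ≤ D ∧ (D : ℝ) ≤ (Q : ℝ) ^ ((1 : ℝ) / 8) ∧ (Real.log Q) ^ (A + 1) ≤ (Q : ℝ) ^ ((7 : ℝ) / 8) ∧
    ∀ N : ℕ, (N : ℝ) ≤ (Q : ℝ) ^ (1 / (10 * (k : ℝ))) → N + H ≤ D ∧ (D : ℝ) ^ 2 ≤ Q / Real.log D ∧
      (D : ℝ) ^ 2 * (2 * (N : ℝ)) ^ (4 * k + 2) ≤ Q / Real.log D := by
  have hpow : ∀ a B : ℝ, 0 < a → ∀ᶠ x : ℝ in atTop, B ≤ x ^ a := fun a B ha => (tendsto_rpow_atTop ha).eventually_ge_atTop B
  have hlogp : ∀ᶠ x : ℝ in atTop, (Real.log x) ^ (A + 1) ≤ x ^ ((7 : ℝ) / 8) := by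
    have e1 := (isLittleO_log_rpow_rpow_atTop (s := (7 : ℝ) / 8) ((A + 1 : ℕ) : ℝ) (by norm_num)).bound (one_pos)
    filter_upwards [e1, eventually_ge_atTop (1 : ℝ)] with x hx hx1
    have h0 := Real.log_nonneg hx1
    rw [Real.rpow_natCast, one_mul, Real.norm_eq_abs, Real.norm_eq_abs, abs_of_nonneg (by positivity),
      abs_of_nonneg (by positivity)] at hx
    exact hx
  have hev : ∀ᶠ x : ℝ in atTop, (3 : ℝ) ≤ x ∧ (11 : ℝ) ≤ x ^ ((1 : ℝ) / 16) ∧ (H + 2 : ℝ) ≤ x ^ ((1 : ℝ) / 40) ∧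
      (2 : ℝ) ^ (4 * k + 2) ≤ x ^ ((1 : ℝ) / 40) ∧ (Real.log x) ^ (A + 1) ≤ x ^ ((7 : ℝ) / 8) := by
    filter_upwards [eventually_ge_atTop (3 : ℝ), hpow ((1 : ℝ) / 16) 11 (by norm_num), hpow ((1 : ℝ) / 40) (H + 2) (by norm_num),
      hpow ((1 : ℝ) / 40) ((2 : ℝ) ^ (4 * k + 2)) (by norm_num), hlogp]
      with x h1 h2 h3 h4 h5
    exact ⟨h1, h2, h3, h4, h5⟩
  obtain ⟨x₀, hx₀⟩ := eventually_atTop.1 hev
  refine ⟨max 3 ⌈x₀⌉₊, le_max_left _ _, ?_⟩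
  intro Q hQ
  have hQx : x₀ ≤ Q := (Nat.le_ceil x₀).trans (by exact_mod_cast (le_max_right _ _).trans hQ)
  obtain ⟨h3, h11, hH, h4, hlp⟩ := hx₀ Q hQx
  obtain ⟨x, hx⟩ : ∃ x : ℝ, x = Q := ⟨_, rfl⟩
  rw [← hx] at h3 h11 h4 hH hlp ⊢
  have hx0 : 0 < x := by linarith
  have hx1 : 1 ≤ x := by linarith
  have hmono : ∀ a b : ℝ, a ≤ b → x ^ a ≤ x ^ b := fun a b hab => Real.rpow_le_rpow_of_exponent_le hx1 hab
  have hadd : ∀ a b : ℝ, x ^ a * x ^ b = x ^ (a + b) := fun a b => (Real.rpow_add hx0 a b).symm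
  have hsq : x ^ ((1 : ℝ) / 16) * x ^ ((1 : ℝ) / 16) = x ^ ((1 : ℝ) / 8) := by rw [hadd]; norm_num
  obtain ⟨D, hD⟩ : ∃ D, D = ⌊x ^ ((1 : ℝ) / 8)⌋₊ := ⟨_, rfl⟩
  have hD1 : (D : ℝ) ≤ x ^ ((1 : ℝ) / 8) := by rw [hD]; exact Nat.floor_le (by positivity)
  have hD2 : x ^ ((1 : ℝ) / 8) < D + 1 := by rw [hD]; exact Nat.lt_floor_add_one _
  have hy0 : 0 < x ^ ((1 : ℝ) / 16) := by positivity
  have hD3 : x ^ ((1 : ℝ) / 16) ≤ D := by nlinarith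
  have hD4 : (2 : ℝ) ≤ D := by linarith
  have hD5 : 2 ≤ D := by exact_mod_cast hD4
  have hlogD0 : 0 < Real.log D := Real.log_pos (by linarith)
  have hlogD : Real.log D ≤ x ^ ((1 : ℝ) / 8) := (Real.log_le_self (by linarith)).trans hD1
  have hD0 : (0 : ℝ) ≤ D := by linarith
  have hDsq : (D : ℝ) ^ 2 ≤ x ^ ((1 : ℝ) / 4) := by
    calc (D : ℝ) ^ 2 ≤ (x ^ ((1 : ℝ) / 8)) ^ 2 := pow_le_pow_left₀ hD0 hD1 2
      _ = x ^ ((1 : ℝ) / 4) := by rw [sq, hadd]; norm_num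
  have hx14 : 0 < x ^ ((1 : ℝ) / 4) := by positivity
  have hkr : (1 : ℝ) ≤ k := by exact_mod_cast hk
  refine ⟨D, hD5, hD3, hD1, hlp, ?_⟩
  intro N hN
  have hα : 1 / (10 * (k : ℝ)) ≤ 1 / 10 := by
    rw [div_le_div_iff₀ (by positivity) (by norm_num)]
    linarith
  have hN1 : (N : ℝ) ≤ x ^ ((1 : ℝ) / 10) := hN.trans (hmono _ _ hα)
  refine ⟨?_, ?_, ?_⟩
  · have e1 : x ^ ((1 : ℝ) / 10) * x ^ ((1 : ℝ) / 40) = x ^ ((1 : ℝ) / 8) := by rw [hadd]; norm_num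
    have e2 : 1 ≤ x ^ ((1 : ℝ) / 10) := Real.one_le_rpow hx1 (by norm_num)
    have e3 : x ^ ((1 : ℝ) / 10) * (H + 2) ≤ x ^ ((1 : ℝ) / 8) := by
      rw [← e1]
      exact mul_le_mul_of_nonneg_left hH (by linarith)
    have hH0 : (0 : ℝ) ≤ H := Nat.cast_nonneg _
    have e4 : (N : ℝ) + H + 1 < D + 1 := by nlinarith
    have e5 : ((N + H : ℕ) : ℝ) < D := by push_cast; linarith
    exact (by exact_mod_cast e5 : N + H < D).le
  · rw [le_div_iff₀ hlogD0]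
    calc (D : ℝ) ^ 2 * Real.log D ≤ x ^ ((1 : ℝ) / 4) * x ^ ((1 : ℝ) / 8) := mul_le_mul hDsq hlogD hlogD0.le hx14.le
      _ = x ^ ((1 : ℝ) / 4 + 1 / 8) := hadd _ _
      _ ≤ x ^ (1 : ℝ) := hmono _ _ (by norm_num)
      _ = x := Real.rpow_one x
  · rw [le_div_iff₀ hlogD0]
    have e1 : (2 * (N : ℝ)) ^ (4 * k + 2) ≤ (2 : ℝ) ^ (4 * k + 2) * x ^ ((6 : ℝ) / 10) := by
      rw [mul_pow]
      apply mul_le_mul_of_nonneg_left _ (by positivity)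
      calc (N : ℝ) ^ (4 * k + 2) ≤ (x ^ (1 / (10 * (k : ℝ)))) ^ (4 * k + 2) := pow_le_pow_left₀ (Nat.cast_nonneg _) hN _
        _ = x ^ (1 / (10 * (k : ℝ)) * ((4 * k + 2 : ℕ) : ℝ)) := by
          rw [← Real.rpow_natCast, ← Real.rpow_mul hx0.le]
        _ ≤ x ^ ((6 : ℝ) / 10) := by
          apply hmono
          rw [one_div_mul_eq_div, div_le_div_iff₀ (by positivity) (by norm_num)]
          push_cast
          linarith
    calc (D : ℝ) ^ 2 * (2 * (N : ℝ)) ^ (4 * k + 2) * Real.log D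
        ≤ x ^ ((1 : ℝ) / 4) * ((2 : ℝ) ^ (4 * k + 2) * x ^ ((6 : ℝ) / 10)) * x ^ ((1 : ℝ) / 8) := by
          gcongr
      _ = (2 : ℝ) ^ (4 * k + 2) * (x ^ ((1 : ℝ) / 4) * (x ^ ((6 : ℝ) / 10) * x ^ ((1 : ℝ) / 8))) := by ring
      _ = (2 : ℝ) ^ (4 * k + 2) * x ^ ((39 : ℝ) / 40) := by
          rw [hadd, hadd]
          norm_num
      _ ≤ x ^ ((1 : ℝ) / 40) * x ^ ((39 : ℝ) / 40) := mul_le_mul_of_nonneg_right h4 (by positivity)
      _ = x := by rw [hadd]; norm_num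

theorem jj_mono {M N : ℕ} (hM : 1 ≤ M) (h : M ≤ N) : jj M ≤ jj N := by
  unfold jj
  apply Nat.floor_le_floor
  have h1 : (1 : ℝ) ≤ M := by exact_mod_cast hM
  have h2 : Real.log M ≤ Real.log N := Real.log_le_log (by linarith) (by exact_mod_cast h)
  exact pow_le_pow_left₀ (Real.log_nonneg h1) h2 2

/-- the tail of the sum over the subsequence -/
theorem tail_le (J₀ J₁ A : ℕ) (hJ : 1 ≤ J₀) : ∑ j ∈ Icc J₀ J₁, 1 / (j : ℝ) ^ (A + 2) ≤ 2 / (J₀ : ℝ) ^ A := by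
  have hJr : (1 : ℝ) ≤ J₀ := by exact_mod_cast hJ
  calc ∑ j ∈ Icc J₀ J₁, 1 / (j : ℝ) ^ (A + 2) ≤ ∑ j ∈ Icc J₀ J₁, 1 / (J₀ : ℝ) ^ A * (((j : ℝ) ^ 2)⁻¹) := by
        apply sum_le_sum
        intro j hj
        rw [mem_Icc] at hj
        have h1 : (J₀ : ℝ) ≤ j := by exact_mod_cast hj.1
        have h2 : (0 : ℝ) < j := by linarith
        rw [pow_add, ← one_div_mul_one_div, ← one_div ((j : ℝ) ^ 2)]
        apply mul_le_mul_of_nonneg_right _ (by positivity)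
        apply one_div_le_one_div_of_le (by positivity)
        exact pow_le_pow_left₀ (by positivity) h1 A
    _ = 1 / (J₀ : ℝ) ^ A * ∑ j ∈ Icc J₀ J₁, ((j : ℝ) ^ 2)⁻¹ := by rw [mul_sum]
    _ ≤ 1 / (J₀ : ℝ) ^ A * ∑ j ∈ Ioo 0 (J₁ + 1), ((j : ℝ) ^ 2)⁻¹ := by
        apply mul_le_mul_of_nonneg_left _ (by positivity)
        apply sum_le_sum_of_subset_of_nonneg
        · intro j hj
          rw [mem_Icc] at hj
          rw [mem_Ioo]
          omega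
        · intro _ _ _
          positivity
    _ ≤ 1 / (J₀ : ℝ) ^ A * 2 := by
        apply mul_le_mul_of_nonneg_left _ (by positivity)
        have := sum_Ioo_inv_sq_le (α := ℝ) 0 (J₁ + 1)
        simpa using this
    _ = 2 / (J₀ : ℝ) ^ A := by ring

open Classical in
/-- **The main theorem.** -/
theorem main {k : ℕ} (hk : 1 ≤ k) (V : Set ℕ)
    (hdiv : Tendsto (fun N : ℕ => ∑ p ∈ (Icc 1 N).filter (fun p : ℕ => p.Prime ∧ Real.log N < p),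
      qv V p * (1 - qv V p) / p) atTop atTop) (h : Fin k → ℕ) (hinj : Function.Injective h)
    (η : ℝ) (hη : 0 < η) (A : ℕ) : ∃ C : ℝ, 0 < C ∧ ∀ Q : ℕ, 2 ≤ Q → ∀ Y : ℕ, 2 ≤ Y →
      ((PL Q (fun r => ∃ N : ℕ, Y ≤ N ∧ (N : ℝ) ≤ (Q : ℝ) ^ (1 / (10 * (k : ℝ))) ∧ η < dev (inert V r) h N)).card : ℝ) ≤
        C * (Q / Real.log Q) / (Real.log Y) ^ A := by
  obtain ⟨H, hH⟩ : ∃ H, H = ∑ i, h i := ⟨_, rfl⟩
  have hH1 : ∀ i, h i ≤ H := fun i => by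
    rw [hH]
    exact single_le_sum (fun j _ => Nat.zero_le (h j)) (mem_univ i)
  obtain ⟨K, w, m0, hK, hasm⟩ := assemble' hk h hinj H hH1 η hη
  obtain ⟨δ, hδ⟩ : ∃ δ : ℝ, δ = 1 / ((m0 : ℝ) + 1) := ⟨_, rfl⟩
  have hδ0 : 0 < δ := by rw [hδ]; positivity
  rw [← hδ] at hasm
  obtain ⟨Cf, hCf, hfew⟩ := few V hdiv h hinj H hH1 K w hK δ hδ0 (2 * (A + 2))
  obtain ⟨N₀, hN₀⟩ := eventually_atTop.1 hasm
  obtain ⟨M₀, hM₀⟩ := eventually_atTop.1 ((NN_tendsto.comp jj_tendsto).eventually hfew)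
  obtain ⟨J₀, hJ₀⟩ := eventually_atTop.1 (jj_tendsto.eventually_ge_atTop 4)
  obtain ⟨j₀, hj₀⟩ := eventually_atTop.1 (NN_tendsto.eventually hfew)
  obtain ⟨i₀, hi₀⟩ := eventually_atTop.1 (jj_tendsto.eventually_ge_atTop j₀)
  obtain ⟨Y₀, hY₀⟩ : ∃ Y₀ : ℕ, Y₀ = max (max N₀ J₀) (max i₀ 8) := ⟨_, rfl⟩
  obtain ⟨Q₀, hQ₀3, hlarge⟩ := params k H A hk
  have hQ₀r : (3 : ℝ) ≤ Q₀ := by exact_mod_cast hQ₀3
  have hlogQ₀ : 0 < Real.log Q₀ := Real.log_pos (by linarith)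
  have hY₀8 : 8 ≤ Y₀ := by rw [hY₀]; exact (le_max_right _ _).trans (le_max_right _ _)
  have hY₀r : (8 : ℝ) ≤ Y₀ := by exact_mod_cast hY₀8
  have hlogY₀ : 0 < Real.log Y₀ := Real.log_pos (by linarith)
  refine ⟨(Real.log Q₀) ^ (A + 1) + 28 * (Real.log Y₀) ^ A + 1 + 16 * Cf * 4 ^ (A + 2) * 2 * 2 ^ A, by positivity, ?_⟩
  intro Q hQ Y hY
  have hYr : (2 : ℝ) ≤ Y := by exact_mod_cast hY
  have hlogY : 0 < Real.log Y := Real.log_pos (by linarith)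
  have hQr : (2 : ℝ) ≤ Q := by exact_mod_cast hQ
  have hQ0 : (0 : ℝ) < Q := by linarith
  have hQ1 : (1 : ℝ) ≤ Q := by linarith
  have hlogQ : 0 < Real.log Q := Real.log_pos (by linarith)
  obtain ⟨L, hL⟩ : ∃ L : ℝ, L = Q / Real.log Q := ⟨_, rfl⟩
  have hL0 : 0 < L := by rw [hL]; positivity
  have hLQ : (Q : ℝ) = L * Real.log Q := by rw [hL]; field_simp
  rw [← hL]
  obtain ⟨E, hE⟩ : ∃ E : ℕ → Prop, E = fun r => ∃ N : ℕ, Y ≤ N ∧ (N : ℝ) ≤ (Q : ℝ) ^ (1 / (10 * (k : ℝ))) ∧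
      η < dev (inert V r) h N := ⟨_, rfl⟩
  rw [← hE]
  have hkr : (1 : ℝ) ≤ k := by exact_mod_cast hk
  have hα0 : 0 ≤ 1 / (10 * (k : ℝ)) := by positivity
  have hα : 1 / (10 * (k : ℝ)) ≤ 1 := by
    rw [div_le_one (by positivity)]
    linarith
  -- the four constants
  have hc1 : 0 ≤ (Real.log Q₀) ^ (A + 1) := by positivity
  have hc2 : 0 ≤ 28 * (Real.log Y₀) ^ A := by positivity
  have hc4 : 0 ≤ 16 * Cf * 4 ^ (A + 2) * 2 * 2 ^ A := by positivity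
  obtain ⟨S, hS⟩ : ∃ S : ℝ, S = L / (Real.log Y) ^ A := ⟨_, rfl⟩
  have hS0 : 0 < S := by rw [hS]; positivity
  have hgoal : ((Real.log Q₀) ^ (A + 1) + 28 * (Real.log Y₀) ^ A + 1 + 16 * Cf * 4 ^ (A + 2) * 2 * 2 ^ A) * L /
      (Real.log Y) ^ A = (Real.log Q₀) ^ (A + 1) * S + 28 * (Real.log Y₀) ^ A * S + S +
        16 * Cf * 4 ^ (A + 2) * 2 * 2 ^ A * S := by
    rw [hS]
    ring
  rw [hgoal]
  have p1 : 0 ≤ (Real.log Q₀) ^ (A + 1) * S := by positivity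
  have p2 : 0 ≤ 28 * (Real.log Y₀) ^ A * S := by positivity
  have p4 : 0 ≤ 16 * Cf * 4 ^ (A + 2) * 2 * 2 ^ A * S := by positivity
  by_cases hYQ : (Y : ℝ) ≤ (Q : ℝ) ^ (1 / (10 * (k : ℝ)))
  swap
  · have h1 : PL Q E = ∅ := by
      rw [eq_empty_iff_forall_notMem]
      intro q hq
      unfold PL at hq
      rw [mem_PQ, hE] at hq
      obtain ⟨_, _, N, h1, h2, _⟩ := hq
      exact hYQ ((by exact_mod_cast h1 : (Y : ℝ) ≤ N).trans h2)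
    rw [h1, card_empty, Nat.cast_zero]
    positivity
  have hYQ' : (Y : ℝ) ≤ Q := hYQ.trans ((Real.rpow_le_rpow_of_exponent_le hQ1 hα).trans (le_of_eq (Real.rpow_one _)))
  have hlogYQ : Real.log Y ≤ Real.log Q := Real.log_le_log (by linarith) hYQ'
  by_cases hQQ : Q₀ ≤ Q
  swap
  · have hQQ' : (Q : ℝ) ≤ Q₀ := by exact_mod_cast (not_le.1 hQQ).le
    have hlQ : Real.log Q ≤ Real.log Q₀ := Real.log_le_log hQ0 hQQ'
    have h1 : ((PL Q E).card : ℝ) ≤ Q := by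
      have h2 : PL Q E ⊆ Ioc 0 Q := by
        intro q hq
        unfold PL at hq
        rw [mem_PQ] at hq
        rw [mem_Ioc]
        exact hq.1
      have h3 := card_le_card h2
      rw [Nat.card_Ioc, Nat.sub_zero] at h3
      exact_mod_cast h3
    have h4 : (Q : ℝ) ≤ (Real.log Q₀) ^ (A + 1) * S := by
      rw [hS, ← mul_div_assoc, le_div_iff₀ (by positivity)]
      calc (Q : ℝ) * (Real.log Y) ^ A = (L * Real.log Q) * (Real.log Y) ^ A := by rw [← hLQ]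
        _ = L * (Real.log Q * (Real.log Y) ^ A) := by ring
        _ ≤ L * (Real.log Q₀ * (Real.log Q₀) ^ A) := by
          apply mul_le_mul_of_nonneg_left _ hL0.le
          apply mul_le_mul hlQ (pow_le_pow_left₀ hlogY.le (hlogYQ.trans hlQ) A) (by positivity) hlogQ₀.le
        _ = (Real.log Q₀) ^ (A + 1) * L := by rw [pow_succ]; ring
    linarith
  obtain ⟨D, hD2, hD3, hD4, hD5, hD6⟩ := hlarge Q hQQ
  have hDr : (2 : ℝ) ≤ D := by exact_mod_cast hD2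
  have hlogD : 0 < Real.log D := Real.log_pos (by linarith)
  have hlogDQ : Real.log Q ≤ 16 * Real.log D := by
    have h1 := Real.log_le_log (by positivity) hD3
    rw [Real.log_rpow hQ0] at h1
    linarith
  have hLD : Q / Real.log D ≤ 16 * L := by
    rw [hL, div_le_iff₀ hlogD]
    have h1 : 16 * (Q / Real.log Q) * Real.log D = Q * (16 * Real.log D) / Real.log Q := by ring
    rw [h1, le_div_iff₀ hlogQ]
    exact mul_le_mul_of_nonneg_left hlogDQ hQ0.le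
  have hDS : (D : ℝ) ≤ S := by
    rw [hS, le_div_iff₀ (by positivity), hL, le_div_iff₀ hlogQ]
    calc (D : ℝ) * (Real.log Y) ^ A * Real.log Q ≤ (Q : ℝ) ^ ((1 : ℝ) / 8) * ((Real.log Q) ^ A * Real.log Q) := by
          rw [mul_assoc]
          apply mul_le_mul hD4 _ (by positivity) (by positivity)
          apply mul_le_mul_of_nonneg_right (pow_le_pow_left₀ hlogY.le hlogYQ A) hlogQ.le
      _ = (Q : ℝ) ^ ((1 : ℝ) / 8) * (Real.log Q) ^ (A + 1) := by rw [pow_succ]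
      _ ≤ (Q : ℝ) ^ ((1 : ℝ) / 8) * (Q : ℝ) ^ ((7 : ℝ) / 8) := mul_le_mul_of_nonneg_left hD5 (by positivity)
      _ = Q := by rw [← Real.rpow_add hQ0]; norm_num
  by_cases hYX : Y₀ ≤ Y
  swap
  · have h1 := card_split D Q E
    have h2 := primes_le D Q hD2 E
    have hYX' : (Y : ℝ) ≤ Y₀ := by exact_mod_cast (not_le.1 hYX).le
    have hlY : Real.log Y ≤ Real.log Y₀ := Real.log_le_log (by linarith) hYX'
    have hLhalf : (Q : ℝ) ^ ((1 : ℝ) / 2) ≤ 2 * L := by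
      have h1 := log_le_half Q hQ0.le
      rw [hL, ← mul_div_assoc, le_div_iff₀ hlogQ]
      have h2 : (Q : ℝ) ^ ((1 : ℝ) / 2) * (Q : ℝ) ^ ((1 : ℝ) / 2) = Q := by
        rw [← Real.rpow_add hQ0]; norm_num
      have h3 : 0 < (Q : ℝ) ^ ((1 : ℝ) / 2) := by positivity
      calc (Q : ℝ) ^ ((1 : ℝ) / 2) * Real.log Q ≤ (Q : ℝ) ^ ((1 : ℝ) / 2) * (2 * (Q : ℝ) ^ ((1 : ℝ) / 2)) :=
            mul_le_mul_of_nonneg_left h1 h3.le
        _ = 2 * ((Q : ℝ) ^ ((1 : ℝ) / 2) * (Q : ℝ) ^ ((1 : ℝ) / 2)) := by ring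
        _ = 2 * Q := by rw [h2]
    have h3 : (D : ℝ) ^ 2 ≤ (Q : ℝ) ^ ((1 : ℝ) / 2) := by
      calc (D : ℝ) ^ 2 ≤ ((Q : ℝ) ^ ((1 : ℝ) / 8)) ^ 2 := pow_le_pow_left₀ (by linarith) hD4 2
        _ = (Q : ℝ) ^ ((1 : ℝ) / 4) := by rw [sq, ← Real.rpow_add hQ0]; norm_num
        _ ≤ _ := Real.rpow_le_rpow_of_exponent_le hQ1 (by norm_num)
    have h4 : (D : ℝ) ≤ (D : ℝ) ^ 2 := by nlinarith
    have h5 : ((PL Q E).card : ℝ) ≤ 28 * L := by linarith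
    have h6 : 28 * L ≤ 28 * (Real.log Y₀) ^ A * S := by
      rw [hS, ← mul_div_assoc, le_div_iff₀ (by positivity)]
      have : (Real.log Y) ^ A ≤ (Real.log Y₀) ^ A := pow_le_pow_left₀ hlogY.le hlY A
      calc 28 * L * (Real.log Y) ^ A ≤ 28 * L * (Real.log Y₀) ^ A := mul_le_mul_of_nonneg_left this (by linarith)
        _ = _ := by ring
    linarith
  -- the main case
  have hYN : N₀ ≤ Y := by rw [hY₀] at hYX; exact ((le_max_left _ _).trans (le_max_left _ _)).trans hYX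
  have hYJ : J₀ ≤ Y := by rw [hY₀] at hYX; exact ((le_max_right _ _).trans (le_max_left _ _)).trans hYX
  have hYi : i₀ ≤ Y := by rw [hY₀] at hYX; exact ((le_max_left _ _).trans (le_max_right _ _)).trans hYX
  have hY8 : 8 ≤ Y := hY₀8.trans hYX
  have hY8r : (8 : ℝ) ≤ Y := by exact_mod_cast hY8
  obtain ⟨Bj, hBj⟩ : ∃ Bj : ℕ → Finset ℕ, Bj = fun j => (Ioc D Q).filter (fun r => r.Prime ∧ 3 * δ * (NN j : ℕ) <
      Zr V h H K w (NN j) r) := ⟨_, rfl⟩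
  obtain ⟨J, hJ⟩ : ∃ J, J = (Icc (jj Y) (jj Q)).filter (fun j => ((NN j : ℕ) : ℝ) ≤ (Q : ℝ) ^ (1 / (10 * (k : ℝ)))) := ⟨_, rfl⟩
  have hsub : PQ D Q E ⊆ J.biUnion Bj := by
    intro r hr
    rw [mem_PQ, hE] at hr
    obtain ⟨⟨hDr, hrQ⟩, hrp, N, hN1, hN2, hN3⟩ := hr
    rw [mem_biUnion]
    have hNN : NN (jj N) ≤ N := NN_jj_le N (by omega)
    have hNQ : (N : ℝ) ≤ Q := hN2.trans ((Real.rpow_le_rpow_of_exponent_le hQ1 hα).trans (le_of_eq (Real.rpow_one _)))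
    refine ⟨jj N, ?_, ?_⟩
    · rw [hJ, mem_filter, mem_Icc]
      refine ⟨⟨jj_mono (by omega) hN1, jj_mono (by omega) (by exact_mod_cast hNQ)⟩, ?_⟩
      exact (by exact_mod_cast hNN : ((NN (jj N) : ℕ) : ℝ) ≤ N).trans hN2
    · rw [hBj]
      dsimp only
      rw [mem_filter, mem_Ioc]
      refine ⟨⟨hDr, hrQ⟩, hrp, ?_⟩
      by_contra hcon
      have := hN₀ N (hYN.trans hN1) (inert V r) (not_lt.1 hcon)
      linarith
  have hjY4 : 4 ≤ jj Y := hJ₀ Y hYJ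
  have hjYj : j₀ ≤ jj Y := hi₀ Y hYi
  have hone : ∀ j ∈ J, ((Bj j).card : ℝ) ≤ Cf * (16 * L) * 4 ^ (A + 2) * (1 / (j : ℝ) ^ (A + 2)) := by
    intro j hj
    rw [hJ, mem_filter, mem_Icc] at hj
    obtain ⟨⟨hj1, hj2⟩, hj3⟩ := hj
    obtain ⟨g1, g2, g3⟩ := hD6 (NN j) hj3
    have h1 := hj₀ j (hjYj.trans hj1) D Q hD2 g1 g2 g3
    have h2 := NN_log j (hjY4.trans hj1)
    have hjr : (4 : ℝ) ≤ j := by exact_mod_cast (hjY4.trans hj1)
    have hsq0 : 0 < Real.sqrt j := Real.sqrt_pos.2 (by linarith)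
    have h3 : ((j : ℝ) / 4) ^ (A + 2) ≤ (Real.log (NN j : ℕ)) ^ (2 * (A + 2)) := by
      have e1 : (j : ℝ) / 4 = (Real.sqrt j / 2) ^ 2 := by
        rw [div_pow, Real.sq_sqrt (by linarith)]
        norm_num
      rw [e1, ← pow_mul]
      exact pow_le_pow_left₀ (by positivity) h2 _
    rw [hBj]
    dsimp only
    refine le_trans ?_ (h1.trans ?_)
    · apply le_of_eq
      congr 2
    · have h4 : 0 < ((j : ℝ) / 4) ^ (A + 2) := by positivity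
      calc Cf * (Q / Real.log D) / (Real.log (NN j : ℕ)) ^ (2 * (A + 2)) ≤ Cf * (16 * L) / ((j : ℝ) / 4) ^ (A + 2) := by
            apply div_le_div₀ (by positivity) (mul_le_mul_of_nonneg_left hLD hCf) h4 h3
        _ = Cf * (16 * L) * 4 ^ (A + 2) * (1 / (j : ℝ) ^ (A + 2)) := by
            rw [div_pow]
            field_simp
  have hlogY2 : 2 ≤ Real.log Y := by
    have e1 : Real.exp 2 ≤ 8 := by
      have e2 : Real.exp 2 = Real.exp 1 * Real.exp 1 := by rw [← Real.exp_add]; norm_num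
      have e3 := Real.exp_one_lt_d9
      have e4 := Real.exp_pos 1
      rw [e2]
      nlinarith
    rw [Real.le_log_iff_exp_le (by linarith)]
    linarith
  have hjY : (Real.log Y) ^ 2 / 2 ≤ (jj Y : ℕ) := by
    have e1 : (Real.log Y) ^ 2 < (jj Y : ℕ) + 1 := Nat.lt_floor_add_one _
    nlinarith
  have hjYA : (Real.log Y) ^ A / 2 ^ A ≤ ((jj Y : ℕ) : ℝ) ^ A := by
    rw [← div_pow]
    apply pow_le_pow_left₀ (by positivity)
    nlinarith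
  have hsum : ((PQ D Q E).card : ℝ) ≤ 16 * Cf * 4 ^ (A + 2) * 2 * 2 ^ A * S := by
    calc ((PQ D Q E).card : ℝ) ≤ ((J.biUnion Bj).card : ℝ) := by exact_mod_cast card_le_card hsub
      _ ≤ ∑ j ∈ J, ((Bj j).card : ℝ) := by exact_mod_cast card_biUnion_le
      _ ≤ ∑ j ∈ J, Cf * (16 * L) * 4 ^ (A + 2) * (1 / (j : ℝ) ^ (A + 2)) := sum_le_sum hone
      _ ≤ ∑ j ∈ Icc (jj Y) (jj Q), Cf * (16 * L) * 4 ^ (A + 2) * (1 / (j : ℝ) ^ (A + 2)) := by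
          apply sum_le_sum_of_subset_of_nonneg
          · rw [hJ]
            exact filter_subset _ _
          · intro _ _ _
            positivity
      _ = Cf * (16 * L) * 4 ^ (A + 2) * ∑ j ∈ Icc (jj Y) (jj Q), (1 / (j : ℝ) ^ (A + 2)) := by rw [mul_sum]
      _ ≤ Cf * (16 * L) * 4 ^ (A + 2) * (2 / ((jj Y : ℕ) : ℝ) ^ A) :=
          mul_le_mul_of_nonneg_left (tail_le _ _ _ (by omega)) (by positivity)
      _ ≤ Cf * (16 * L) * 4 ^ (A + 2) * (2 / ((Real.log Y) ^ A / 2 ^ A)) := by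
          apply mul_le_mul_of_nonneg_left _ (by positivity)
          apply div_le_div_of_nonneg_left (by norm_num) (by positivity) hjYA
      _ = 16 * Cf * 4 ^ (A + 2) * 2 * 2 ^ A * S := by
          rw [hS]
          field_simp
  have h1 := card_split D Q E
  linarith

end Pool.Agent.K4H14.SP
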