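import Pool.Agent.K4H19.RO.Core

set_option autoImplicit false

/-!
# The pointwise form of the comparison of the full with the truncated law (after `Pool.Agent.K4H19.RO.inner`)
-/

namespace Pool.Agent.K4H14.SP

open Finset
open Pool.Agent.W208.TL (PP)
open Pool.Agent.K4H19.RO

/-- the fluctuation of the counts around the conditional mean over the primes of `W` -/
noncomputable def Zc {k : ℕ} (q : ℕ → ℝ) (h : Fin k → ℕ) (N : ℕ) (U W : Finset ℕ) (Bx : Finset (Fin k → ℕ))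
    (S : Finset ℕ) : ℝ :=
  ∑ l ∈ Bx, |∑ n ∈ Icc 1 N, (ind (gV h U S n) l - Ex q W (fun D => ind (gV h U (S \ W ∪ D) n) l))|

theorem tri {ε Y : ℝ} (hε : 0 ≤ ε) (hY : ∀ q : ℕ → ℝ, (∀ p, 0 ≤ q p) → (∀ p, q p ≤ 1) →
    ∀ P : Finset ℕ, Y ≤ ∑ p ∈ P, q p * (1 - q p) → ∀ G : ℕ → ℝ, (∀ n, |G n| ≤ 1) →
    |Ex q P (fun D => G ((P \ D).card + 1)) - Ex q P (fun D => G (P \ D).card)| ≤ ε)
    {k : ℕ} (q : ℕ → ℝ) (h0 : ∀ p, 0 ≤ q p) (h1 : ∀ p, q p ≤ 1) (h : Fin k → ℕ) (hinj : Function.Injective h)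
    (H N w u v K B : ℕ) (hN : 1 ≤ N) (hH : ∀ j, h j ≤ H) (hHu : H ≤ u) (hwu : w ≤ u) (hu : 1 ≤ u)
    (huv : u ≤ v) (hvM : v ≤ N + H) (hK : N + H < (v + 1) ^ (K + 1)) (Bx : Finset (Fin k → ℕ)) (δ : ℝ)
    (hbad : k * (B + K) * ε * N + 2 * ((bad q h (PP u v) N w B Y).card : ℝ) ≤ δ * N)
    (S : Finset ℕ) :
    Zdev h N (PP 0 (N + H)) (PP w v) Bx S ≤
      Zc q h N (PP 0 (N + H)) (PP u v) Bx S + δ * N + Zc q h N (PP w v) (PP u v) Bx S := by
  classical
  obtain ⟨E, hEdef⟩ : ∃ E : Finset ℕ, E = S \ PP u v := ⟨_, rfl⟩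
  have hE : Disjoint E (PP u v) := by
    rw [hEdef]
    exact sdiff_disjoint
  have hSE : E ∪ (S ∩ PP u v) = S := by
    rw [hEdef]
    exact sdiff_union_inter S _
  obtain ⟨W, hW⟩ : ∃ W, W = PP u v := ⟨_, rfl⟩
  have hNr : (0 : ℝ) < N := by exact_mod_cast hN
  have hW1 : W ⊆ PP w v := by
    intro p hp
    rw [hW, mem_PP] at hp
    rw [mem_PP]
    exact ⟨⟨by omega, hp.1.2⟩, hp.2⟩
  have hW2 : PP w v ⊆ PP 0 (N + H) := by
    intro p hp
    rw [mem_PP] at hp
    rw [mem_PP]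
    exact ⟨⟨by omega, by omega⟩, hp.2⟩
  have hWp : ∀ p ∈ W, p.Prime := fun p hp => by
    rw [hW, mem_PP] at hp
    exact hp.2
  have hWu : ∀ p ∈ W, u < p := fun p hp => by
    rw [hW, mem_PP] at hp
    exact hp.1.1
  rw [← hW] at hE hbad ⊢
  -- the vectors
  obtain ⟨a, ha⟩ : ∃ a : ℕ → Fin k → ℕ, a = fun n => gV h (PP w v \ W) E n := ⟨_, rfl⟩
  obtain ⟨r, hr⟩ : ∃ r : ℕ → Fin k → ℕ, r = fun n => gV h (PP 0 (N + H) \ PP w v) E n := ⟨_, rfl⟩
  obtain ⟨XF, hXF⟩ : ∃ XF : ℕ → Finset ℕ → Fin k → ℕ, XF = fun n D i => XX (nu h n) W D i + (a n i + r n i) :=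
    ⟨_, rfl⟩
  obtain ⟨XT, hXT⟩ : ∃ XT : ℕ → Finset ℕ → Fin k → ℕ, XT = fun n D i => XX (nu h n) W D i + a n i := ⟨_, rfl⟩
  have eT : ∀ n D, D ⊆ W → gV h (PP w v) (E ∪ D) n = XT n D := by
    intro n D hD
    rw [hXT, ha]
    funext j
    exact gV_split h hW1 hE hD n j
  have eF : ∀ n D, D ⊆ W → gV h (PP 0 (N + H)) (E ∪ D) n = XF n D := by
    intro n D hD
    rw [hXF, ha, hr]
    funext j
    dsimp only
    rw [gV_split h (hW1.trans hW2) hE hD n j]
    congr 1
    rw [gV_add h (U' := PP w v \ W) (sdiff_subset_sdiff hW2 (Subset.refl W)) n j]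
    congr 2
    ext p
    simp only [mem_sdiff]
    constructor
    · rintro ⟨⟨h2, h3⟩, h4⟩
      exact ⟨h2, fun h5 => h4 ⟨h5, h3⟩⟩
    · rintro ⟨h2, h3⟩
      exact ⟨⟨h2, fun h4 => h3 (hW1 h4)⟩, fun h4 => h3 h4.1⟩
  -- good integers
  have hgood : ∀ n ∈ Icc 1 N, n ∉ bad q h W N w B Y → ∀ G : (Fin k → ℕ) → ℝ, (∀ x, |G x| ≤ 1) →
      Ex q W (fun D => G (XF n D)) - Ex q W (fun D => G (XT n D)) ≤ k * (B + K) * ε := by
    intro n hn hnb G hG
    unfold bad at hnb
    rw [mem_filter] at hnb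
    push Not at hnb
    obtain ⟨g1, g2⟩ := hnb hn
    have hs := shift hY q h0 h1 W (nu h n) (fun p hp j h3 i hij =>
      nu_disj h hinj H u hH hHu n p (hWu p hp) j i hij h3) g1 G hG (∑ i, r n i) (a n) (r n) rfl
    have hs2 : ((∑ i, r n i : ℕ) : ℝ) ≤ k * (B + K) := by
      have : ∑ i, r n i ≤ ∑ _i : Fin k, (B + K) := by
        apply sum_le_sum
        intro i _
        rw [hr]
        dsimp only
        unfold gV
        have e1 : (PP 0 (N + H) \ PP w v) \ E ⊆ PP 0 w ∪ PP v (N + H) := by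
          intro p hp
          rw [mem_sdiff, mem_sdiff, mem_PP, mem_PP] at hp
          rw [mem_union, mem_PP, mem_PP]
          by_cases h3 : p ≤ w
          · exact Or.inl ⟨⟨hp.1.1.1.1, h3⟩, hp.1.1.2⟩
          · right
            refine ⟨⟨?_, hp.1.1.1.2⟩, hp.1.1.2⟩
            by_contra h4
            exact hp.1.2 ⟨⟨by omega, by omega⟩, hp.1.1.2⟩
        refine (sum_le_sum_of_subset e1).trans ?_
        rw [sum_union (by
          rw [disjoint_left]
          intro p hp hp2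
          rw [mem_PP] at hp hp2
          omega)]
        refine Nat.add_le_add (g2 i) ?_
        apply bigBound v (N + H) (n + h i) K
        · have := (mem_Icc.1 hn).1
          omega
        · have := (mem_Icc.1 hn).2
          have := hH i
          omega
      rw [sum_const, card_univ, Fintype.card_fin, smul_eq_mul] at this
      exact_mod_cast this
    have h5 := le_abs_self (Ex q W (fun D => G (fun i => XX (nu h n) W D i + (a n i + r n i))) -
      Ex q W (fun D => G (fun i => XX (nu h n) W D i + a n i)))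
    have h6 : ((∑ i, r n i : ℕ) : ℝ) * ε ≤ k * (B + K) * ε := mul_le_mul_of_nonneg_right hs2 hε
    rw [hXF, hXT]
    dsimp only
    linarith
  -- the middle term
  have hmid : ∑ l ∈ Bx, |∑ n ∈ Icc 1 N, (Ex q W (fun D => ind (XF n D) l) - Ex q W (fun D => ind (XT n D) l))| ≤
      δ * N := by
    have e1 : ∀ n ∈ Icc 1 N, ∑ l ∈ Bx, |Ex q W (fun D => ind (XF n D) l) - Ex q W (fun D => ind (XT n D) l)| ≤
        k * (B + K) * ε + if n ∈ bad q h W N w B Y then 2 else 0 := by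
      intro n hn
      obtain ⟨G, hG1, hG2⟩ := sign_sum (q := q) W Bx (XF n) (XT n)
      rw [hG2]
      split_ifs with hb
      · have := two_bound h0 h1 W G hG1 (XF n) (XT n)
        have : (0 : ℝ) ≤ k * (B + K) * ε := by positivity
        linarith
      · have := hgood n hn hb G hG1
        linarith
    calc _ ≤ ∑ l ∈ Bx, ∑ n ∈ Icc 1 N, |Ex q W (fun D => ind (XF n D) l) - Ex q W (fun D => ind (XT n D) l)| :=
          sum_le_sum fun l _ => abs_sum_le_sum_abs _ _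
      _ = ∑ n ∈ Icc 1 N, ∑ l ∈ Bx, |Ex q W (fun D => ind (XF n D) l) - Ex q W (fun D => ind (XT n D) l)| :=
          sum_comm
      _ ≤ ∑ n ∈ Icc 1 N, (k * (B + K) * ε + if n ∈ bad q h W N w B Y then 2 else 0) := sum_le_sum e1
      _ = k * (B + K) * ε * N + 2 * ((bad q h W N w B Y).card : ℝ) := by
          rw [sum_add_distrib, sum_const, Nat.card_Icc, nsmul_eq_mul, ← sum_filter, sum_const, nsmul_eq_mul]
          have e2 : (Icc 1 N).filter (fun n => n ∈ bad q h W N w B Y) = bad q h W N w B Y := by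
            ext n
            rw [mem_filter]
            refine ⟨fun h => h.2, fun h => ⟨?_, h⟩⟩
            unfold bad at h
            exact (mem_filter.1 h).1
          rw [e2]
          simp only [Nat.add_sub_cancel]
          ring
      _ ≤ δ * N := hbad
  have hS : S ∩ W ⊆ W := inter_subset_right
  have f1 : ∀ n l, ind (gV h (PP 0 (N + H)) S n) l = ind (XF n (S ∩ W)) l := by
    intro n l
    rw [← eF n (S ∩ W) hS]
    congr 2
    rw [hW, hSE]
  have f2 : ∀ n l, ind (gV h (PP w v) S n) l = ind (XT n (S ∩ W)) l := by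
    intro n l
    rw [← eT n (S ∩ W) hS]
    congr 2
    rw [hW, hSE]
  have f3 : ∀ n l, Ex q W (fun D => ind (gV h (PP 0 (N + H)) (S \ W ∪ D) n) l) = Ex q W (fun D => ind (XF n D) l) := by
    intro n l
    apply Ex_congr
    intro D hD
    rw [← eF n D hD, hEdef, hW]
  have f4 : ∀ n l, Ex q W (fun D => ind (gV h (PP w v) (S \ W ∪ D) n) l) = Ex q W (fun D => ind (XT n D) l) := by
    intro n l
    apply Ex_congr
    intro D hD
    rw [← eT n D hD, hEdef, hW]
  unfold Zdev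
  refine le_trans ?_ (add_le_add (add_le_add (le_refl (Zc q h N (PP 0 (N + H)) W Bx S)) hmid)
    (le_refl (Zc q h N (PP w v) W Bx S)))
  unfold Zc
  rw [← sum_add_distrib, ← sum_add_distrib]
  apply sum_le_sum
  intro l _
  have e1 : ∑ n ∈ Icc 1 N, (ind (gV h (PP 0 (N + H)) S n) l - ind (gV h (PP w v) S n) l) =
      ∑ n ∈ Icc 1 N, (ind (gV h (PP 0 (N + H)) S n) l - Ex q W (fun D => ind (gV h (PP 0 (N + H)) (S \ W ∪ D) n) l)) +
      ∑ n ∈ Icc 1 N, (Ex q W (fun D => ind (XF n D) l) - Ex q W (fun D => ind (XT n D) l)) -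
      ∑ n ∈ Icc 1 N, (ind (gV h (PP w v) S n) l - Ex q W (fun D => ind (gV h (PP w v) (S \ W ∪ D) n) l)) := by
    rw [← sum_add_distrib, ← sum_sub_distrib]
    apply sum_congr rfl
    intro n _
    rw [f3, f4]
    ring
  rw [e1]
  refine (abs_sub _ _).trans ?_
  exact add_le_add (abs_add_le _ _) le_rfl

end Pool.Agent.K4H14.SP
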