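import Pool.Agent.K4H14.SP.Trans
import Pool.Agent.K4H14.SP.Tri
import Pool.Agent.K4H19.RO.Prob

/-!
# The mean square over the primes `r` of the fluctuation
-/

set_option autoImplicit false

namespace Pool.Agent.K4H14.SP

open Finset
open Pool.Agent.W208.TL (PP)
open Pool.Agent.K4H19.RO

open Classical in
/-- the probabilities -/
noncomputable def qv (V : Set ℕ) (p : ℕ) : ℝ := if p ∈ V then 1 / 2 else 0

theorem qv_nonneg (V : Set ℕ) (p : ℕ) : 0 ≤ qv V p := by
  unfold qv; split_ifs <;> norm_num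

theorem qv_le (V : Set ℕ) (p : ℕ) : qv V p ≤ 1 := by
  unfold qv; split_ifs <;> norm_num

/-- the primes of `V` with Legendre symbol `-1` modulo `r` -/
def inert (V : Set ℕ) (r : ℕ) : Set ℕ := {p | p ∈ V ∧ jacobiSym (p : ℤ) r = -1}

open Classical in
/-- the primes of `V` dividing one of the `n + h j` -/
noncomputable def Pn (V : Set ℕ) (M : ℕ) {k : ℕ} (h : Fin k → ℕ) (n : ℕ) : Finset ℕ :=
  (PP 0 M).filter (fun p => p ∈ V ∧ ∃ j, p ∣ n + h j)

theorem mem_Pn {V : Set ℕ} {M k : ℕ} {h : Fin k → ℕ} {n p : ℕ} :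
    p ∈ Pn V M h n ↔ p ∈ PP 0 M ∧ p ∈ V ∧ ∃ j, p ∣ n + h j := by
  classical
  unfold Pn
  rw [mem_filter]

theorem gV_dep {k : ℕ} (h : Fin k → ℕ) (U S T : Finset ℕ) (n : ℕ)
    (hST : ∀ p ∈ U, (∃ j, p ∣ n + h j) → (p ∈ S ↔ p ∈ T)) : gV h U S n = gV h U T n := by
  funext j
  unfold gV
  rw [sdiff_eq_filter, sdiff_eq_filter, sum_filter, sum_filter]
  apply sum_congr rfl
  intro p hp
  by_cases hd : p ∣ n + h j
  · have := hST p hp ⟨j, hd⟩
    by_cases h1 : p ∈ S
    · rw [if_neg (not_not.2 h1), if_neg (not_not.2 (this.1 h1))]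
    · rw [if_pos h1, if_pos (fun h2 => h1 (this.2 h2))]
  · rw [Nat.factorization_eq_zero_of_not_dvd hd]
    simp

theorem Ex_supp (V : Set ℕ) (W A : Finset ℕ) (hAW : A ⊆ W) (hAV : ∀ p ∈ A, p ∈ V) (f : Finset ℕ → ℝ)
    (hf : ∀ S ⊆ W, (∀ p ∈ S, p ∈ V) → f S = f (S ∩ A)) :
    Ex (qv V) W f = (∑ D ∈ A.powerset, f D) / 2 ^ A.card := by
  have h1 : Ex (qv V) W f = Ex (qv V) W (fun S => f (S ∩ A)) := by
    unfold Ex
    apply sum_congr rfl
    intro S hS
    by_cases h2 : ∀ p ∈ S, p ∈ V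
    · rw [hf S (mem_powerset.1 hS) h2]
    · push Not at h2
      obtain ⟨p, hp, hpV⟩ := h2
      have : ∏ p ∈ S, qv V p = 0 := prod_eq_zero hp (by unfold qv; rw [if_neg hpV])
      rw [this, zero_mul, zero_mul, zero_mul]
  rw [h1, Ex_left hAW (fun S => f (S ∩ A)) (fun S => by rw [inter_assoc, inter_self])]
  unfold Ex
  rw [sum_div]
  apply sum_congr rfl
  intro S hS
  rw [mem_powerset] at hS
  have e1 : ∏ p ∈ S, qv V p = (1 / 2 : ℝ) ^ S.card := by
    rw [← prod_const]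
    exact prod_congr rfl fun p hp => by unfold qv; rw [if_pos (hAV p (hS hp))]
  have e2 : ∏ p ∈ A \ S, (1 - qv V p) = (1 / 2 : ℝ) ^ (A \ S).card := by
    rw [← prod_const]
    exact prod_congr rfl fun p hp => by
      unfold qv
      rw [if_pos (hAV p (mem_sdiff.1 hp).1)]
      norm_num
  dsimp only
  rw [e1, e2, ← pow_add, inter_eq_left.2 hS]
  have e3 : S.card + (A \ S).card = A.card := by
    rw [add_comm]
    exact card_sdiff_add_card_eq_card hS
  rw [e3, one_div, inv_pow]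
  field_simp

theorem prod_Pn_le (V : Set ℕ) {k : ℕ} (h : Fin k → ℕ) (H N n : ℕ) (hH : ∀ j, h j ≤ H) (hn : n ∈ Icc 1 N) :
    ((∏ p ∈ Pn V (N + H) h n, p : ℕ) : ℝ) ≤ ((N : ℝ) + H) ^ k := by
  rw [mem_Icc] at hn
  have h1 : ∏ p ∈ Pn V (N + H) h n, p ∣ ∏ j, (n + h j) := by
    apply prod_primes_dvd
    · intro p hp
      exact (mem_PP.1 (mem_Pn.1 hp).1).2.prime
    · intro p hp
      obtain ⟨j, hj⟩ := (mem_Pn.1 hp).2.2
      exact hj.trans (dvd_prod_of_mem _ (mem_univ j))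
  have h2 := Nat.le_of_dvd (prod_pos fun j _ => by omega) h1
  have h3 : ∏ j, (n + h j) ≤ (N + H) ^ k := by
    calc ∏ j, (n + h j) ≤ ∏ _j : Fin k, (N + H) := prod_le_prod' fun j _ => by have := hH j; omega
      _ = (N + H) ^ k := by rw [prod_const, card_univ, Fintype.card_fin]
  exact_mod_cast h2.trans h3

open Classical in
theorem mean {k : ℕ} (V : Set ℕ) (h : Fin k → ℕ) (H N u v D Q : ℕ) (hH : ∀ j, h j ≤ H) (hu : 1 ≤ u) (hD : 2 ≤ D)
    (hND : N + H ≤ D) (U : Finset ℕ) (hU : U ⊆ PP 0 (N + H)) (hW : PP u v ⊆ PP 0 (N + H)) (Bx : Finset (Fin k → ℕ)) :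
    ∑ r ∈ (Ioc D Q).filter Nat.Prime, Zc (qv V) h N U (PP u v) Bx (sel (inert V r) (PP 0 (N + H))) ^ 2 ≤
      (Bx.card : ℝ) ^ 2 * ((Q / Real.log D + (D : ℝ) ^ 2) * (((k : ℝ) * ((N : ℝ) + H)) ^ 2 / (u : ℝ)) +
        4 * (((N : ℝ) + H) ^ k) ^ 2 * (D : ℝ) ^ 2 * (N * ((N : ℝ) + H) ^ k) ^ 2) := by
  obtain ⟨W, hWd⟩ : ∃ W, W = PP u v := ⟨_, rfl⟩
  rw [← hWd] at hW ⊢
  obtain ⟨Sq, hSqd⟩ : ∃ Sq : ℕ → Finset ℕ, Sq = fun r => sel (inert V r) (PP 0 (N + H)) := ⟨_, rfl⟩
  have hmemS : ∀ r p, p ∈ Sq r ↔ p ∈ PP 0 (N + H) ∧ p ∈ V ∧ jacobiSym (p : ℤ) r = -1 := by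
    intro r p
    rw [hSqd]
    unfold sel
    rw [mem_filter]
    rfl
  obtain ⟨P, hP⟩ : ∃ P : ℕ → Finset ℕ, P = Pn V (N + H) h := ⟨_, rfl⟩
  have hPm : ∀ n p, p ∈ P n ↔ p ∈ PP 0 (N + H) ∧ p ∈ V ∧ ∃ j, p ∣ n + h j := by
    intro n p
    rw [hP]
    exact mem_Pn
  obtain ⟨G, hG⟩ : ∃ G : (Fin k → ℕ) → ℕ → Finset ℕ → ℝ, G = fun l n S => ind (gV h U S n) l -
    Ex (qv V) W (fun D => ind (gV h U (S \ W ∪ D) n) l) := ⟨_, rfl⟩
  have hG1 : ∀ l n S, |G l n S| ≤ 1 := by
    intro l n S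
    rw [hG]
    dsimp only
    have a1 := ind_nonneg (gV h U S n) l
    have a2 := ind_le (gV h U S n) l
    have a3 : 0 ≤ Ex (qv V) W (fun D => ind (gV h U (S \ W ∪ D) n) l) :=
      Ex_nonneg (qv_nonneg V) (qv_le V) fun D _ => ind_nonneg _ _
    have a4 : Ex (qv V) W (fun D => ind (gV h U (S \ W ∪ D) n) l) ≤ Ex (qv V) W (fun _ => 1) :=
      Ex_mono (qv_nonneg V) (qv_le V) fun D _ => ind_le _ _
    rw [Ex_const] at a4
    rw [abs_le]
    constructor <;> linarith
  -- one value of `l`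
  have hone : ∀ l : Fin k → ℕ, ∑ r ∈ (Ioc D Q).filter Nat.Prime, (∑ n ∈ Icc 1 N, G l n (Sq r)) ^ 2 ≤
      (Q / Real.log D + (D : ℝ) ^ 2) * (((k : ℝ) * ((N : ℝ) + H)) ^ 2 / (u : ℝ)) +
        4 * (((N : ℝ) + H) ^ k) ^ 2 * (D : ℝ) ^ 2 * (N * ((N : ℝ) + H) ^ k) ^ 2 := by
    intro l
    have hSr : ∀ r n, G l n (Sq r) = G l n (Sq r ∩ P n) := by
      intro r n
      rw [hG]
      dsimp only
      have e1 : gV h U (Sq r) n = gV h U (Sq r ∩ P n) n := by
        apply gV_dep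
        intro p hp hd
        rw [mem_inter, hPm, hmemS]
        tauto
      have e2 : ∀ D, gV h U (Sq r \ W ∪ D) n = gV h U ((Sq r ∩ P n) \ W ∪ D) n := by
        intro D
        apply gV_dep
        intro p hp hd
        simp only [mem_union, mem_sdiff, mem_inter, hPm, hmemS]
        tauto
      rw [e1]
      congr 1
      apply Ex_congr
      intro D _
      rw [e2]
    have key := transfer D Q hD N P W (fun n S => G l n (S ∩ P n)) (((N : ℝ) + H) ^ k)
      (fun n _ p hp => (mem_PP.1 ((hPm n p).1 hp).1).2)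
      (fun n hn => by
        rw [hP]
        exact prod_Pn_le V h H N n hH hn) (by positivity)
      (fun n _ S => by
        rw [inter_assoc, inter_self])
      (fun n S => hG1 l n _)
      (by
        intro n _ E hE
        have hEW : ∀ p ∈ E, p ∉ W := fun p hp => (mem_sdiff.1 (hE hp)).2
        have hEP : E ⊆ P n := hE.trans sdiff_subset
        obtain ⟨f, hf⟩ : ∃ f : Finset ℕ → ℝ, f = fun D => ind (gV h U (E ∪ D) n) l := ⟨_, rfl⟩
        have e1 : ∀ D ∈ (P n ∩ W).powerset, G l n ((E ∪ D) ∩ P n) = f D - Ex (qv V) W f := by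
          intro D hD
          rw [mem_powerset] at hD
          rw [inter_eq_left.2 (union_subset hEP (hD.trans inter_subset_left)), hG, hf]
          dsimp only
          congr 1
          apply Ex_congr
          intro D' _
          congr 2
          congr 1
          ext p
          rw [mem_sdiff, mem_union]
          constructor
          · rintro ⟨h1 | h1, h2⟩
            · exact h1
            · exact absurd (mem_inter.1 (hD h1)).2 h2
          · intro h1
            exact ⟨Or.inl h1, hEW p h1⟩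
        rw [sum_congr rfl e1, sum_sub_distrib, sum_const, card_powerset, nsmul_eq_mul]
        rw [Ex_supp V W (P n ∩ W) inter_subset_right (fun p hp => ((hPm n p).1 (mem_inter.1 hp).1).2.1) f (by
          intro S hSW hSV
          rw [hf]
          dsimp only
          congr 1
          apply gV_dep
          intro p hp hd
          rw [mem_union, mem_union, mem_inter, mem_inter, hPm]
          constructor
          · rintro (h1 | h1)
            · exact Or.inl h1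
            · exact Or.inr ⟨h1, ⟨hU hp, hSV p h1, hd⟩, hSW h1⟩
          · rintro (h1 | h1)
            · exact Or.inl h1
            · exact Or.inr h1.1)]
        push_cast
        field_simp
        ring)
      (((k : ℝ) * ((N : ℝ) + H)) ^ 2 / (u : ℝ))
      (by
        refine le_trans ?_ (shareCount W (fun p hp => (mem_PP.1 (hW hp)).2) u hu (fun p hp => by
          rw [hWd] at hp
          exact (mem_PP.1 hp).1.1) h H N hH)
        have hsub : (Icc 1 N ×ˢ Icc 1 N).filter (fun x : ℕ × ℕ => ¬ Disjoint (P x.1 ∩ W) (P x.2 ∩ W)) ⊆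
          (Icc 1 N ×ˢ Icc 1 N).filter (fun x : ℕ × ℕ => ¬ Disjoint (W.filter (fun p => ∃ j, p ∣ x.1 + h j))
            (W.filter (fun p => ∃ j, p ∣ x.2 + h j))) := by
          intro x hx
          rw [mem_filter] at hx ⊢
          refine ⟨hx.1, ?_⟩
          have h2 := hx.2
          rw [not_disjoint_iff] at h2 ⊢
          obtain ⟨p, hp1, hp2⟩ := h2
          rw [mem_inter, hPm] at hp1 hp2
          exact ⟨p, mem_filter.2 ⟨hp1.2, hp1.1.2.2⟩, mem_filter.2 ⟨hp2.2, hp2.1.2.2⟩⟩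
        exact_mod_cast card_le_card hsub)
      Sq
      (by
        intro r hr n hn p hp
        rw [mem_filter, mem_Ioc] at hr
        rw [hPm] at hp
        have hp2 := mem_PP.1 hp.1
        have hpr : p ≠ r := by omega
        have hcop : Nat.Coprime p r := (Nat.coprime_primes hp2.2 hr.2).2 hpr
        have hne : jacobiSym (p : ℤ) r ≠ 0 := by
          have : NeZero r := ⟨hr.2.ne_zero⟩
          rw [Ne, jacobiSym.eq_zero_iff_not_coprime, not_not, Int.gcd_natCast_natCast]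
          exact hcop
        unfold sg
        rcases jacobiSym.trichotomy (p : ℤ) r with h1 | h1 | h1
        · exact absurd h1 hne
        · rw [if_neg, h1]
          · norm_num
          · intro h2
            rw [hmemS, h1] at h2
            exact absurd h2.2.2 (by norm_num)
        · rw [if_pos, h1]
          · norm_num
          · rw [hmemS]
            exact ⟨hp.1, hp.2.1, h1⟩)
    refine le_trans (le_of_eq ?_) key
    apply sum_congr rfl
    intro r _
    congr 1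
    apply sum_congr rfl
    intro n _
    exact hSr r n
  -- all `l`
  have h2 : ∀ r, Zc (qv V) h N U W Bx (Sq r) ^ 2 ≤ Bx.card * ∑ l ∈ Bx, (∑ n ∈ Icc 1 N, G l n (Sq r)) ^ 2 := by
    intro r
    unfold Zc
    have := sq_sum_le_card_mul_sum_sq (s := Bx) (f := fun l => |∑ n ∈ Icc 1 N, (ind (gV h U (Sq r) n) l -
      Ex (qv V) W (fun D => ind (gV h U (Sq r \ W ∪ D) n) l))|)
    refine this.trans (le_of_eq ?_)
    congr 1
    apply sum_congr rfl
    intro l _
    rw [sq_abs, hG]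
  have h3 : ∀ r, sel (inert V r) (PP 0 (N + H)) = Sq r := fun r => by rw [hSqd]
  simp only [h3]
  calc _ ≤ ∑ r ∈ (Ioc D Q).filter Nat.Prime, (Bx.card : ℝ) * ∑ l ∈ Bx, (∑ n ∈ Icc 1 N, G l n (Sq r)) ^ 2 :=
        sum_le_sum fun r _ => h2 r
    _ = (Bx.card : ℝ) * ∑ l ∈ Bx, ∑ r ∈ (Ioc D Q).filter Nat.Prime, (∑ n ∈ Icc 1 N, G l n (Sq r)) ^ 2 := by
        rw [← mul_sum, sum_comm]
    _ ≤ (Bx.card : ℝ) * ∑ _l ∈ Bx, ((Q / Real.log D + (D : ℝ) ^ 2) * (((k : ℝ) * ((N : ℝ) + H)) ^ 2 / (u : ℝ)) +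
        4 * (((N : ℝ) + H) ^ k) ^ 2 * (D : ℝ) ^ 2 * (N * ((N : ℝ) + H) ^ k) ^ 2) :=
        mul_le_mul_of_nonneg_left (sum_le_sum fun l _ => hone l) (Nat.cast_nonneg _)
    _ = _ := by
        rw [sum_const, nsmul_eq_mul]
        ring

end Pool.Agent.K4H14.SP
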