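import Pool.Agent.K4H14.SP.Four
import Pool.Agent.K4H14.GQ.Jac

/-!
# The large sieve for functions of the signs `(p / q)`
-/

set_option autoImplicit false

namespace Pool.Agent.K4H14.SP

open Finset

theorem jac_prod' (A : Finset ℕ) (q : ℕ) :
    ((jacobiSym ((∏ p ∈ A, p : ℕ) : ℤ) q : ℤ) : ℝ) = ∏ p ∈ A, ((jacobiSym (p : ℤ) q : ℤ) : ℝ) := by
  classical
  induction A using Finset.induction_on with
  | empty => simp [jacobiSym.one_left]
  | insert x S hx ih =>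
    rw [prod_insert hx, prod_insert hx, Nat.cast_mul, jacobiSym.mul_left, Int.cast_mul, ih]

theorem fac_prod (A : Finset ℕ) (hA : ∀ p ∈ A, p.Prime) (p : ℕ) :
    (∏ r ∈ A, r).factorization p = if p ∈ A then 1 else 0 := by
  rw [Nat.factorization_prod (fun r hr => (hA r hr).ne_zero), Finsupp.finsetSum_apply]
  have h1 : ∀ r ∈ A, r.factorization p = if r = p then 1 else 0 := by
    intro r hr
    rw [(hA r hr).factorization, Finsupp.single_apply]
  rw [sum_congr rfl h1, sum_ite_eq']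

theorem sq_eq (A B : Finset ℕ) (hA : ∀ p ∈ A, p.Prime) (hB : ∀ p ∈ B, p.Prime)
    (h : IsSquare ((∏ r ∈ A, r) * ∏ r ∈ B, r)) : A = B := by
  obtain ⟨s, hs⟩ := h
  have hA0 : ∏ r ∈ A, r ≠ 0 := prod_ne_zero_iff.2 fun r hr => (hA r hr).ne_zero
  have hB0 : ∏ r ∈ B, r ≠ 0 := prod_ne_zero_iff.2 fun r hr => (hB r hr).ne_zero
  have hs0 : s ≠ 0 := by
    rintro rfl
    rw [mul_zero] at hs
    exact mul_ne_zero hA0 hB0 hs
  ext p
  have h1 : ((∏ r ∈ A, r) * ∏ r ∈ B, r).factorization p = (s * s).factorization p := by rw [hs]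
  rw [Nat.factorization_mul hA0 hB0, Nat.factorization_mul hs0 hs0, Finsupp.add_apply, Finsupp.add_apply,
    fac_prod A hA p, fac_prod B hB p] at h1
  by_cases h2 : p ∈ A
  · by_cases h3 : p ∈ B
    · exact ⟨fun _ => h3, fun _ => h2⟩
    · rw [if_pos h2, if_neg h3] at h1
      omega
  · by_cases h3 : p ∈ B
    · rw [if_neg h2, if_pos h3] at h1
      omega
    · exact ⟨fun h => absurd h h2, fun h => absurd h h3⟩

open Classical in
theorem transfer (D Q : ℕ) (hD : 2 ≤ D) (N : ℕ) (P : ℕ → Finset ℕ) (W : Finset ℕ) (g : ℕ → Finset ℕ → ℝ) (M : ℝ)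
    (hPp : ∀ n ∈ Icc 1 N, ∀ p ∈ P n, p.Prime) (hPM : ∀ n ∈ Icc 1 N, ((∏ p ∈ P n, p : ℕ) : ℝ) ≤ M) (hM : 0 ≤ M)
    (hg : ∀ n ∈ Icc 1 N, ∀ S, g n S = g n (S ∩ P n)) (hg1 : ∀ n S, |g n S| ≤ 1)
    (hm : ∀ n ∈ Icc 1 N, ∀ E ⊆ P n \ W, ∑ D ∈ (P n ∩ W).powerset, g n (E ∪ D) = 0) (R : ℝ)
    (hR : (((Icc 1 N ×ˢ Icc 1 N).filter (fun x : ℕ × ℕ => ¬ Disjoint (P x.1 ∩ W) (P x.2 ∩ W))).card : ℝ) ≤ R)
    (Sq : ℕ → Finset ℕ) (hSq : ∀ q ∈ (Ioc D Q).filter Nat.Prime, ∀ n ∈ Icc 1 N, ∀ p ∈ P n,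
      ((jacobiSym (p : ℤ) q : ℤ) : ℝ) = sg (Sq q) p) :
    ∑ q ∈ (Ioc D Q).filter Nat.Prime, (∑ n ∈ Icc 1 N, g n (Sq q)) ^ 2 ≤
      (Q / Real.log D + (D : ℝ) ^ 2) * R + 4 * M ^ 2 * (D : ℝ) ^ 2 * (N * M) ^ 2 := by
  obtain ⟨T, hT⟩ : ∃ T : Finset ((_ : ℕ) × Finset ℕ), T = (Icc 1 N).sigma (fun n => (P n).powerset) := ⟨_, rfl⟩
  obtain ⟨c, hc⟩ : ∃ c : ((_ : ℕ) × Finset ℕ) → ℝ, c = fun x => co (P x.1) (g x.1) x.2 := ⟨_, rfl⟩
  obtain ⟨m, hmm⟩ : ∃ m : ((_ : ℕ) × Finset ℕ) → ℕ, m = fun x => ∏ p ∈ x.2, p := ⟨_, rfl⟩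
  have hlog : 0 < Real.log D := Real.log_pos (by exact_mod_cast (by omega : 1 < D))
  have hmem : ∀ x ∈ T, x.1 ∈ Icc 1 N ∧ x.2 ⊆ P x.1 := by
    intro x hx
    rw [hT, mem_sigma, mem_powerset] at hx
    exact hx
  have hmM : ∀ x ∈ T, 0 < m x ∧ (m x : ℝ) ≤ M := by
    intro x hx
    obtain ⟨h1, h2⟩ := hmem x hx
    rw [hmm]
    dsimp only
    have h3 : 0 < ∏ p ∈ x.2, p := prod_pos fun p hp => (hPp _ h1 p (h2 hp)).pos
    refine ⟨h3, le_trans ?_ (hPM _ h1)⟩
    have h4 : ∏ p ∈ x.2, p ≤ ∏ p ∈ P x.1, p :=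
      Nat.le_of_dvd (prod_pos fun p hp => (hPp _ h1 p hp).pos) (prod_dvd_prod_of_subset _ _ _ h2)
    exact_mod_cast h4
  have key := GQ.sieve D Q hD T c m M hmM
  have hlhs : ∀ q ∈ (Ioc D Q).filter Nat.Prime, ∑ x ∈ T, c x * ((jacobiSym (m x : ℤ) q : ℤ) : ℝ) =
      ∑ n ∈ Icc 1 N, g n (Sq q) := by
    intro q hq
    rw [hT, sum_sigma]
    apply sum_congr rfl
    intro n hn
    rw [expand (P n) (g n) (hg n hn) (Sq q)]
    apply sum_congr rfl
    intro A hA
    rw [hc, hmm]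
    dsimp only
    rw [jac_prod']
    congr 1
    unfold ch
    apply prod_congr rfl
    intro p hp
    exact hSq q hq n hn p (mem_powerset.1 hA hp)
  rw [sum_congr rfl fun q hq => by rw [hlhs q hq]] at key
  refine key.trans ?_
  have hcz : ∀ x ∈ T, Disjoint x.2 W → c x = 0 := by
    intro x hx hd
    obtain ⟨h1, h2⟩ := hmem x hx
    rw [hc]
    exact co_zero (P x.1) W (g x.1) (hm x.1 h1) x.2 h2 hd
  -- the diagonal
  have hdiag : (∑ i ∈ T, ∑ j ∈ T, if IsSquare (m i * m j) then |c i| * |c j| else 0) ≤ R := by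
    have h1 : ∀ i ∈ T, ∀ j ∈ T, (if IsSquare (m i * m j) then |c i| * |c j| else 0) =
        if i.2 = j.2 then |c i| * |c j| else 0 := by
      intro i hi j hj
      obtain ⟨a1, a2⟩ := hmem i hi
      obtain ⟨b1, b2⟩ := hmem j hj
      by_cases h2 : i.2 = j.2
      · rw [if_pos h2, if_pos]
        rw [hmm]
        dsimp only
        rw [h2]
        exact ⟨_, rfl⟩
      · rw [if_neg h2, if_neg]
        intro h3
        apply h2
        rw [hmm] at h3
        exact sq_eq i.2 j.2 (fun p hp => hPp _ a1 p (a2 hp)) (fun p hp => hPp _ b1 p (b2 hp)) h3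
    rw [sum_congr rfl fun i hi => sum_congr rfl fun j hj => h1 i hi j hj]
    have h2 : (∑ i ∈ T, ∑ j ∈ T, if i.2 = j.2 then |c i| * |c j| else 0) =
        ∑ n ∈ Icc 1 N, ∑ n' ∈ Icc 1 N, ∑ A ∈ (P n).powerset, ∑ B ∈ (P n').powerset,
          if A = B then |c ⟨n, A⟩| * |c ⟨n', B⟩| else 0 := by
      rw [hT, sum_sigma]
      apply sum_congr rfl
      intro n _
      symm
      rw [sum_comm]
      apply sum_congr rfl
      intro A _
      rw [sum_sigma]
    rw [h2]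
    refine le_trans ?_ hR
    rw [card_filter, Nat.cast_sum, sum_product]
    apply sum_le_sum
    intro n hn
    apply sum_le_sum
    intro n' hn'
    by_cases hd : Disjoint (P n ∩ W) (P n' ∩ W)
    · rw [if_neg (by push Not; exact hd), Nat.cast_zero]
      apply le_of_eq
      apply sum_eq_zero
      intro A hA
      apply sum_eq_zero
      intro B hB
      split_ifs with hAB
      · subst hAB
        rw [mem_powerset] at hA hB
        by_cases h3 : Disjoint A W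
        · rw [hcz ⟨n, A⟩ (by rw [hT, mem_sigma, mem_powerset]; exact ⟨hn, hA⟩) h3, abs_zero, zero_mul]
        · exfalso
          rw [not_disjoint_iff] at h3
          obtain ⟨p, hp1, hp2⟩ := h3
          exact disjoint_left.1 hd (mem_inter.2 ⟨hA hp1, hp2⟩) (mem_inter.2 ⟨hB hp1, hp2⟩)
      · rfl
    · rw [if_pos hd, Nat.cast_one]
      have h3 : ∀ A ∈ (P n).powerset, (∑ B ∈ (P n').powerset, if A = B then |c ⟨n, A⟩| * |c ⟨n', B⟩| else 0) ≤
          c ⟨n, A⟩ ^ 2 / 2 + (∑ B ∈ (P n').powerset, if A = B then c ⟨n', B⟩ ^ 2 / 2 else 0) := by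
        intro A _
        rw [sum_ite_eq, sum_ite_eq]
        split_ifs
        · rw [← sq_abs (c ⟨n, A⟩), ← sq_abs (c ⟨n', A⟩)]
          nlinarith [sq_nonneg (|c ⟨n, A⟩| - |c ⟨n', A⟩|)]
        · positivity
      refine (sum_le_sum h3).trans ?_
      rw [sum_add_distrib, ← sum_div]
      have h4 : ∑ A ∈ (P n).powerset, c ⟨n, A⟩ ^ 2 ≤ 1 := by
        rw [hc]
        exact parseval (P n) (g n) (hg n hn) (hg1 n)
      have h5 : ∑ A ∈ (P n).powerset, (∑ B ∈ (P n').powerset, if A = B then c ⟨n', B⟩ ^ 2 / 2 else 0) ≤ 1 / 2 := by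
        rw [sum_comm]
        have h6 : ∑ B ∈ (P n').powerset, c ⟨n', B⟩ ^ 2 ≤ 1 := by
          rw [hc]
          exact parseval (P n') (g n') (hg n' hn') (hg1 n')
        calc _ ≤ ∑ B ∈ (P n').powerset, c ⟨n', B⟩ ^ 2 / 2 := by
              apply sum_le_sum
              intro B _
              rw [sum_ite_eq']
              split_ifs
              · exact le_rfl
              · positivity
          _ ≤ 1 / 2 := by
              rw [← sum_div]
              linarith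
      linarith
  -- the total
  have htot : ∑ i ∈ T, |c i| ≤ N * M := by
    rw [hT, sum_sigma]
    calc ∑ n ∈ Icc 1 N, ∑ A ∈ (P n).powerset, |c ⟨n, A⟩| ≤ ∑ _n ∈ Icc 1 N, M := by
          apply sum_le_sum
          intro n hn
          refine le_trans ?_ (hPM n hn)
          calc ∑ A ∈ (P n).powerset, |c ⟨n, A⟩| ≤ ∑ _A ∈ (P n).powerset, (1 : ℝ) := by
                apply sum_le_sum
                intro A _
                rw [hc]
                exact co_abs (P n) (g n) (hg1 n) A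
            _ = ((2 ^ (P n).card : ℕ) : ℝ) := by rw [sum_const, card_powerset, nsmul_eq_mul, mul_one]
            _ ≤ ((∏ p ∈ P n, p : ℕ) : ℝ) := by
                have h7 : 2 ^ (P n).card ≤ ∏ p ∈ P n, p := by
                  rw [← prod_const]
                  exact prod_le_prod' fun p hp => (hPp n hn p hp).two_le
                exact_mod_cast h7
      _ = N * M := by rw [sum_const, Nat.card_Icc, nsmul_eq_mul]; simp
  have htot0 : 0 ≤ ∑ i ∈ T, |c i| := sum_nonneg fun _ _ => abs_nonneg _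
  have hA : 0 ≤ Q / Real.log D + (D : ℝ) ^ 2 := by positivity
  apply add_le_add
  · refine mul_le_mul_of_nonneg_left ?_ hA
    refine le_trans (le_of_eq ?_) hdiag
    congr!
  · apply mul_le_mul_of_nonneg_left (pow_le_pow_left₀ htot0 htot 2) (by positivity)

end Pool.Agent.K4H14.SP
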